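import Mathlib
import Pool.Agent.H386R2.Artin.Defs
import Pool.Agent.H730R2.AA.Defs

set_option autoImplicit false

/-! # Primes `p` congruent to 3 modulo 4 at which an integer has order `p - 1` or `(p - 1) / 2`:
definitions (variant of the definitions of helper730 and helper386 for primitive roots) -/

namespace Pool.Agent.H771R4.AQ

open Finset
open Pool.Agent.H386R2.Artin (artinC)
open Pool.Agent.H730R2.AA (rho)

/-- `a` has order `p - 1` or `(p - 1) / 2` -/
def Adm (p : ℕ) (a : ZMod p) : Prop := orderOf a = p - 1 ∨ 2 * orderOf a = p - 1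

/-- number of primes `p ≤ x`, `p` congruent to 3 modulo 4, at which `n` has order `p - 1` or
`(p - 1) / 2` -/
noncomputable def cnt (n : ℤ) (x : ℕ) : ℕ := by
  classical
  exact ((Finset.range (x + 1)).filter
    (fun p : ℕ => p.Prime ∧ p % 4 = 3 ∧ Adm p (n : ZMod p))).card

/-- the density: Artin's constant -/
noncomputable def dens (_D : ℤ) : ℝ := artinC

/-- the good primes up to `x` -/
def PR (D : ℤ) (x : ℕ) : Finset ℕ :=
  (Finset.range (x + 1)).filter (fun p => p.Prime ∧ p % 4 = 3 ∧ ¬ ((p : ℤ) ∣ D))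

/-- main term -/
noncomputable def mainT (D : ℤ) (x : ℕ) : ℝ := ∑ p ∈ PR D x, 2 * rho p

/-- the integers `m ≤ M` that are exceptional at `x` with respect to the value `v` -/
noncomputable def bad (D : ℤ) (ε v : ℝ) (x M : ℕ) : Finset ℕ := by
  classical
  exact (Finset.Icc 1 M).filter (fun m : ℕ => ε * (Nat.primeCounting x : ℝ) <
      |(cnt (D * (m : ℤ) ^ 2) x : ℝ) - v|)

/-- the integers `m ≤ M` that are exceptional at some `x` with `X ≤ x ≤ Y` -/
noncomputable def badAll (D : ℤ) (ε : ℝ) (X : ℕ) (Y : ℝ) (M : ℕ) : Finset ℕ := by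
  classical
  exact (Finset.Icc 1 M).filter (fun m : ℕ => ∃ x : ℕ, X ≤ x ∧ (x : ℝ) ≤ Y ∧
      ε * (Nat.primeCounting x : ℝ) <
        |(cnt (D * (m : ℤ) ^ 2) x : ℝ) - dens D * (Nat.primeCounting x : ℝ)|)

end Pool.Agent.H771R4.AQ
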