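import Mathlib
import Pool.Agent.H771R4.AQ.Defs
import Pool.Agent.Helper923.PNTQ

set_option autoImplicit false

/-! # All `x` simultaneously -/

namespace Pool.Agent.H771R4.AQ

open Finset Filter Topology

namespace Grid

lemma pi_ratio (ε : ℝ) (hε : 0 < ε) : ∃ ρ : ℝ, 1 < ρ ∧ ρ ≤ 2 ∧ ∃ X : ℕ, 2 ≤ X ∧
    ∀ x y : ℕ, X ≤ x → x ≤ y → (y : ℝ) ≤ ρ ^ 2 * x →
      (Nat.primeCounting y : ℝ) ≤ (1 + ε) * Nat.primeCounting x := by
  set κ : ℝ := min (1 / 8) (ε / 16) with hκ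
  have hκ0 : 0 < κ := lt_min (by norm_num) (by positivity)
  have hκ1 : κ ≤ 1 / 8 := min_le_left _ _
  have hκ2 : κ ≤ ε / 16 := min_le_right _ _
  have hpnt := Pool.Agent.Helper923.H403.PNT602.pi_tendsto
  rw [Metric.tendsto_atTop] at hpnt
  obtain ⟨Y, hY⟩ := hpnt κ hκ0
  refine ⟨1 + κ, by linarith, by linarith, max 3 (⌈Y⌉₊), le_trans (by norm_num) (le_max_left _ _), ?_⟩
  intro x y hx hxy hyx
  have hx3 : 3 ≤ x := (le_max_left _ _).trans hx
  have hxY : Y ≤ (x : ℝ) := (Nat.le_ceil Y).trans (by exact_mod_cast (le_max_right _ _).trans hx)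
  have hxy' : (x : ℝ) ≤ y := by exact_mod_cast hxy
  have h1 := hY x hxY
  have h2 := hY y (hxY.trans hxy')
  rw [Real.dist_eq, Nat.floor_natCast, abs_lt] at h1 h2
  have hx0 : (0 : ℝ) < x := by exact_mod_cast (by omega : 0 < x)
  have hy0 : (0 : ℝ) < y := lt_of_lt_of_le hx0 hxy'
  have hlx : 0 < Real.log x := Real.log_pos (by exact_mod_cast (by omega : 1 < x))
  have hlxy : Real.log x ≤ Real.log y := Real.log_le_log hx0 hxy'
  have hly : 0 < Real.log y := hlx.trans_le hlxy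
  have h3 : (Nat.primeCounting y : ℝ) * Real.log y ≤ (1 + κ) * y := by
    have := h2.2
    rw [sub_lt_iff_lt_add, div_lt_iff₀ hy0] at this
    linarith
  have h4 : (1 - κ) * x ≤ (Nat.primeCounting x : ℝ) * Real.log x := by
    have := h1.1
    rw [lt_sub_iff_add_lt, lt_div_iff₀ hx0] at this
    linarith
  have h5 : (Nat.primeCounting y : ℝ) * Real.log x ≤ (1 + κ) * ((1 + κ) ^ 2 * x) := by
    calc (Nat.primeCounting y : ℝ) * Real.log x ≤ (Nat.primeCounting y : ℝ) * Real.log y := by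
          gcongr
      _ ≤ (1 + κ) * y := h3
      _ ≤ _ := by gcongr
  have h6 : (1 + κ) * ((1 + κ) ^ 2) ≤ (1 + ε) * (1 - κ) := by nlinarith [sq_nonneg κ, mul_nonneg hκ0.le hκ0.le]
  have h7 : (Nat.primeCounting y : ℝ) * Real.log x ≤
      ((1 + ε) * Nat.primeCounting x) * Real.log x := by
    calc _ ≤ (1 + κ) * ((1 + κ) ^ 2 * x) := h5
      _ = ((1 + κ) * ((1 + κ) ^ 2)) * x := by ring
      _ ≤ ((1 + ε) * (1 - κ)) * x := by gcongr
      _ = (1 + ε) * ((1 - κ) * x) := by ring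
      _ ≤ (1 + ε) * ((Nat.primeCounting x : ℝ) * Real.log x) := by gcongr
      _ = _ := by ring
  exact le_of_mul_le_mul_right h7 hlx

lemma case2 {M x : ℕ} (hx : 1 ≤ x) (hM1 : 1 < Real.log M) (hxM : (M : ℝ) < (x : ℝ) ^ 2)
    (hlx : Real.log x ≤ (Real.log M) ^ 2 / (32 * Real.log (Real.log M)))
    (hl : Real.log (1 + Real.log M) ≤ 2 * Real.log (Real.log M)) :
    ∃ r : ℕ, 1 ≤ r ∧ (x : ℝ) ^ 2 ≤ (M : ℝ) ^ r ∧
      (x : ℝ) ^ (-(1 : ℝ) / (2 * r)) * (1 + Real.log M) ^ (((r : ℝ) - 1) / 2) ≤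
        Real.exp (-(Real.log M / 16)) := by
  set l := Real.log M with hl'
  have hl0 : 0 < l := by linarith
  have hM0 : (0 : ℝ) < M := by
    rcases Nat.eq_zero_or_pos M with h | h
    · rw [h] at hl'; simp at hl'; linarith
    · exact_mod_cast h
  have hx0 : (0 : ℝ) < x := by exact_mod_cast hx
  have hll : 0 < Real.log l := Real.log_pos hM1
  set a := 2 * Real.log x / l with ha
  have hax : a * l = 2 * Real.log x := by rw [ha]; field_simp
  have ha1 : 1 < a := by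
    rw [ha, lt_div_iff₀ hl0, one_mul, hl']
    have := Real.log_lt_log hM0 hxM
    rw [Real.log_pow] at this
    exact_mod_cast this
  set r := ⌈a⌉₊ with hr
  have hra : a ≤ r := Nat.le_ceil a
  have hra2 : (r : ℝ) < a + 1 := Nat.ceil_lt_add_one (by linarith)
  have hr0 : (0 : ℝ) < r := by linarith
  refine ⟨r, Nat.one_le_iff_ne_zero.2 (by rintro h; rw [h] at hr0; simp at hr0), ?_, ?_⟩
  · rw [← Real.exp_log hx0, ← Real.exp_log hM0, ← Real.exp_nat_mul, ← Real.exp_nat_mul]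
    refine Real.exp_le_exp.2 ?_
    push_cast
    rw [← hax, ← hl']
    gcongr
  · have h1 : (x : ℝ) ^ (-(1 : ℝ) / (2 * r)) ≤ Real.exp (-(l / 8)) := by
      rw [Real.rpow_def_of_pos hx0]
      refine Real.exp_le_exp.2 ?_
      have h2 : Real.log x = a * l / 2 := by rw [hax]; ring
      rw [h2]
      have h3 : a * l / 2 * (-1 / (2 * (r : ℝ))) = -(a * l / (4 * r)) := by
        field_simp; ring
      rw [h3, neg_le_neg_iff, div_le_div_iff₀ (by norm_num) (by positivity)]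
      nlinarith
    have h4 : (1 + l) ^ (((r : ℝ) - 1) / 2) ≤ Real.exp (l / 16) := by
      rw [Real.rpow_def_of_pos (by linarith)]
      refine Real.exp_le_exp.2 ?_
      have h5 : ((r : ℝ) - 1) / 2 ≤ a / 2 := by linarith
      have h6 : 0 ≤ ((r : ℝ) - 1) / 2 := by linarith
      have h7 : a * Real.log l ≤ l / 16 := by
        have h8 : a * l ≤ 2 * (l ^ 2 / (32 * Real.log l)) := by rw [hax]; linarith
        have h9 : 2 * (l ^ 2 / (32 * Real.log l)) = (l / (16 * Real.log l)) * l := by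
          field_simp; ring
        rw [h9] at h8
        have h10 := le_of_mul_le_mul_right h8 hl0
        rw [le_div_iff₀ (by positivity)] at h10
        linarith
      calc Real.log (1 + l) * (((r : ℝ) - 1) / 2) ≤ (2 * Real.log l) * (a / 2) := by
            gcongr
        _ = a * Real.log l := by ring
        _ ≤ _ := h7
    calc _ ≤ Real.exp (-(l / 8)) * Real.exp (l / 16) := by gcongr
      _ = Real.exp (-(l / 16)) := by rw [← Real.exp_add]; congr 1; ring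

/-- the grid -/
noncomputable def g (ρ : ℝ) (j : ℕ) : ℕ := ⌈ρ ^ j⌉₊

noncomputable def hh (ρ : ℝ) (j : ℕ) : ℝ :=
  (1 + Real.log (g ρ j)) ^ 2 * ((g ρ j : ℕ) : ℝ) ^ (-(1 : ℝ) / 2)

lemma log_bound (y : ℝ) (hy : 1 ≤ y) :
    (1 + Real.log y) ^ 2 * y ^ (-(1 : ℝ) / 2) ≤ 81 * y ^ (-(1 : ℝ) / 4) := by
  have hy0 : 0 < y := by linarith
  have h1 : Real.log y ≤ y ^ ((1 : ℝ) / 8) / (1 / 8) :=
    Real.log_le_rpow_div hy0.le (by norm_num)
  have h2 : 1 ≤ y ^ ((1 : ℝ) / 8) := Real.one_le_rpow hy (by norm_num)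
  have h3 : 0 ≤ Real.log y := Real.log_nonneg hy
  have h4 : (1 + Real.log y) ^ 2 ≤ 81 * y ^ ((1 : ℝ) / 4) := by
    have h5 : 1 + Real.log y ≤ 9 * y ^ ((1 : ℝ) / 8) := by linarith
    have h6 : (y ^ ((1 : ℝ) / 8)) ^ 2 = y ^ ((1 : ℝ) / 4) := by
      rw [← Real.rpow_natCast, ← Real.rpow_mul hy0.le]; norm_num
    calc (1 + Real.log y) ^ 2 ≤ (9 * y ^ ((1 : ℝ) / 8)) ^ 2 := by gcongr
      _ = _ := by rw [mul_pow, h6]; norm_num
  calc _ ≤ 81 * y ^ ((1 : ℝ) / 4) * y ^ (-(1 : ℝ) / 2) := by gcongr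
    _ = 81 * y ^ (-(1 : ℝ) / 4) := by
      rw [mul_assoc, ← Real.rpow_add hy0]; norm_num

lemma g_ge {ρ : ℝ} (j : ℕ) : ρ ^ j ≤ (g ρ j : ℝ) := Nat.le_ceil _

lemma g_one_le {ρ : ℝ} (hρ : 1 < ρ) (j : ℕ) : (1 : ℝ) ≤ (g ρ j : ℝ) :=
  (one_le_pow₀ hρ.le).trans (g_ge j)

lemma hh_nonneg {ρ : ℝ} (j : ℕ) : 0 ≤ hh ρ j := by unfold hh; positivity

lemma hh_summable {ρ : ℝ} (hρ : 1 < ρ) : Summable (hh ρ) := by
  have h1 : ρ ^ (-(1 : ℝ) / 4) < 1 := Real.rpow_lt_one_of_one_lt_of_neg hρ (by norm_num)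
  have h0 : 0 ≤ ρ ^ (-(1 : ℝ) / 4) := by positivity
  refine Summable.of_nonneg_of_le (fun j => hh_nonneg j) (fun j => ?_)
    ((summable_geometric_of_lt_one h0 h1).mul_left 81)
  unfold hh
  refine (log_bound _ (g_one_le hρ j)).trans ?_
  have h2 : ((g ρ j : ℕ) : ℝ) ^ (-(1 : ℝ) / 4) ≤ (ρ ^ j) ^ (-(1 : ℝ) / 4) :=
    Real.rpow_le_rpow_of_nonpos (by positivity) (g_ge j) (by norm_num)
  have h3 : (ρ ^ j) ^ (-(1 : ℝ) / 4) = (ρ ^ (-(1 : ℝ) / 4)) ^ j := by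
    rw [← Real.rpow_natCast, ← Real.rpow_natCast, ← Real.rpow_mul (by linarith),
      ← Real.rpow_mul (by linarith), mul_comm]
  rw [← h3]
  gcongr

lemma hh_tail {ρ : ℝ} (hρ : 1 < ρ) (τ : ℝ) (hτ : 0 < τ) : ∃ J : ℕ, ∀ J0 : ℕ, J ≤ J0 → ∀ L : ℕ,
    ∑ j ∈ Ico J0 L, hh ρ j ≤ τ := by
  have h := tendsto_sum_nat_add (hh ρ)
  have h1 := (h.eventually (gt_mem_nhds hτ))
  rw [eventually_atTop] at h1
  obtain ⟨J, hJ⟩ := h1
  refine ⟨J, fun J0 hJ0 L => ?_⟩
  rw [sum_Ico_eq_sum_range]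
  refine le_trans ?_ (hJ J0 hJ0).le
  have hs : Summable (fun k => hh ρ (k + J0)) := (summable_nat_add_iff J0).2 (hh_summable hρ)
  refine le_trans (le_of_eq ?_) (hs.sum_le_tsum (range (L - J0)) (fun k _ => hh_nonneg _))
  exact sum_congr rfl fun k _ => by rw [add_comm]

/-- interpolation between grid points -/
lemma interp {δ e P0 P P1 A0 A A1 : ℝ} (he0 : 0 < e) (he1 : e ≤ 1) (hP0 : 0 ≤ P0) (h01 : P0 ≤ P)
    (h12 : P ≤ P1) (hP : P1 ≤ (1 + e) * P0) (hA0 : A0 ≤ A) (hA1 : A ≤ A1)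
    (h0 : |A0 - δ * P0| ≤ e * P0) (h1 : |A1 - δ * P1| ≤ e * P1) :
    |A - δ * P| ≤ (|δ| + 3) * e * P := by
  rw [abs_le] at h0 h1 ⊢
  have hP' : 0 ≤ P := hP0.trans h01
  have hd := abs_nonneg δ
  have h3 : δ * (P1 - P) ≤ |δ| * (e * P0) := by
    calc δ * (P1 - P) ≤ |δ| * (P1 - P) := by
          refine mul_le_mul_of_nonneg_right (le_abs_self δ) (by linarith)
      _ ≤ |δ| * (e * P0) := by
          refine mul_le_mul_of_nonneg_left ?_ hd; linarith
  have h4 : δ * (P - P0) ≤ |δ| * (e * P0) := by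
    calc δ * (P - P0) ≤ |δ| * (P - P0) := by
          refine mul_le_mul_of_nonneg_right (le_abs_self δ) (by linarith)
      _ ≤ |δ| * (e * P0) := by
          refine mul_le_mul_of_nonneg_left ?_ hd; linarith
  have h5 : |δ| * (e * P0) ≤ |δ| * (e * P) := by
    refine mul_le_mul_of_nonneg_left ?_ hd
    exact mul_le_mul_of_nonneg_left h01 he0.le
  have h6 : e * P1 ≤ 2 * (e * P) := by
    have : P1 ≤ 2 * P := by nlinarith
    nlinarith
  have h7 : e * P0 ≤ e * P := mul_le_mul_of_nonneg_left h01 he0.le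
  have h8 : 0 ≤ e * P := mul_nonneg he0.le hP'
  constructor <;> nlinarith

lemma cnt_mono (n : ℤ) {x y : ℕ} (h : x ≤ y) : cnt n x ≤ cnt n y := by
  classical
  unfold cnt
  refine card_le_card (filter_subset_filter _ ?_)
  intro a ha
  rw [mem_range] at ha ⊢
  omega

lemma g_step {ρ : ℝ} {j : ℕ} (h : 1 ≤ (ρ ^ 2 - ρ) * g ρ j) (hρ : 1 < ρ) :
    (g ρ (j + 1) : ℝ) ≤ ρ ^ 2 * g ρ j := by
  have h1 : (g ρ (j + 1) : ℝ) < ρ ^ (j + 1) + 1 := Nat.ceil_lt_add_one (by positivity)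
  have h2 := g_ge (ρ := ρ) j
  have h3 : ρ ^ (j + 1) ≤ ρ * g ρ j := by
    rw [pow_succ, mul_comm]
    gcongr
  linarith

lemma g_mono {ρ : ℝ} (hρ : 1 < ρ) {i j : ℕ} (h : i ≤ j) : g ρ i ≤ g ρ j := by
  unfold g
  refine Nat.ceil_le_ceil ?_
  exact pow_le_pow_right₀ hρ.le h

lemma incl (D : ℤ) {ε ε₁ ρ Y : ℝ} (hε₁ : 0 < ε₁) (hε₁1 : ε₁ ≤ 1)
    (hε : (|dens D| + 3) * ε₁ ≤ ε) (hρ : 1 < ρ) {X J0 L : ℕ}
    (hpi : ∀ x y : ℕ, X ≤ x → x ≤ y → (y : ℝ) ≤ ρ ^ 2 * x →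
      (Nat.primeCounting y : ℝ) ≤ (1 + ε₁) * Nat.primeCounting x)
    (hmain : ∀ x : ℕ, X ≤ x → |mainT D x - dens D * Nat.primeCounting x| ≤
      ε₁ / 2 * Nat.primeCounting x)
    (hJ0 : X ≤ g ρ J0) (hJ1 : 1 ≤ (ρ ^ 2 - ρ) * g ρ J0)
    (hL : ∀ j : ℕ, (g ρ j : ℝ) ≤ ρ ^ 2 * Y → j ≤ L) (M : ℕ) :
    badAll D ε (g ρ J0) Y M ⊆ ((Ico J0 (L + 1)).filter (fun j => (g ρ j : ℝ) ≤ ρ ^ 2 * Y)).biUnion
      (fun j => bad D (ε₁ / 2) (mainT D (g ρ j)) (g ρ j) M) := by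
  classical
  intro m hm
  unfold badAll at hm
  rw [mem_filter] at hm
  obtain ⟨hm, x, hxX, hxY, hx⟩ := hm
  have hρ0 : 0 < ρ := by linarith
  have hg1 := g_one_le hρ J0
  have hx1 : (1 : ℝ) ≤ x := hg1.trans (by exact_mod_cast hxX)
  obtain ⟨j, hj1, hj2⟩ := exists_nat_pow_near hx1 hρ
  have hJj : J0 ≤ j := by
    have h1 : ρ ^ J0 < ρ ^ (j + 1) := (g_ge J0).trans_lt (lt_of_le_of_lt (by exact_mod_cast hxX) hj2)
    have := (pow_lt_pow_iff_right₀ hρ).1 h1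
    omega
  have hgx : g ρ j ≤ x := Nat.ceil_le.2 hj1
  have hxg : x ≤ g ρ (j + 1) := by
    have : (x : ℝ) ≤ g ρ (j + 1) := hj2.le.trans (g_ge _)
    exact_mod_cast this
  have hgg : g ρ J0 ≤ g ρ j := g_mono hρ hJj
  have hρρ : 0 < ρ ^ 2 - ρ := by nlinarith
  have hstep : (g ρ (j + 1) : ℝ) ≤ ρ ^ 2 * g ρ j := by
    refine g_step (hJ1.trans ?_) hρ
    have : (g ρ J0 : ℝ) ≤ g ρ j := by exact_mod_cast hgg
    gcongr
  have hgx' : (g ρ j : ℝ) ≤ x := by exact_mod_cast hgx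
  have hY0 : 0 ≤ Y := by linarith
  have hgY : (g ρ j : ℝ) ≤ ρ ^ 2 * Y := by
    have : (g ρ j : ℝ) ≤ Y := hgx'.trans hxY
    nlinarith
  have hgY1 : (g ρ (j + 1) : ℝ) ≤ ρ ^ 2 * Y := by
    refine hstep.trans ?_
    have : (g ρ j : ℝ) ≤ Y := hgx'.trans hxY
    gcongr
  rw [mem_biUnion]
  by_contra hcon
  push Not at hcon
  have hn0 := hcon j (by rw [mem_filter, mem_Ico]; exact ⟨⟨hJj, by have := hL j hgY; omega⟩, hgY⟩)
  have hn1 := hcon (j + 1) (by
    rw [mem_filter, mem_Ico]; exact ⟨⟨by omega, by have := hL _ hgY1; omega⟩, hgY1⟩)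
  unfold bad at hn0 hn1
  rw [mem_filter, not_and, not_lt] at hn0 hn1
  have hn0' := hn0 hm
  have hn1' := hn1 hm
  have hmj := hmain (g ρ j) (hJ0.trans hgg)
  have hmj1 := hmain (g ρ (j + 1)) (hJ0.trans (g_mono hρ (by omega)))
  have ha0 : |(cnt (D * (m : ℤ) ^ 2) (g ρ j) : ℝ) - dens D * Nat.primeCounting (g ρ j)| ≤
      ε₁ * Nat.primeCounting (g ρ j) := by
    have := abs_sub_le (cnt (D * (m : ℤ) ^ 2) (g ρ j) : ℝ) (mainT D (g ρ j))
      (dens D * Nat.primeCounting (g ρ j))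
    linarith
  have ha1 : |(cnt (D * (m : ℤ) ^ 2) (g ρ (j + 1)) : ℝ) -
      dens D * Nat.primeCounting (g ρ (j + 1))| ≤ ε₁ * Nat.primeCounting (g ρ (j + 1)) := by
    have := abs_sub_le (cnt (D * (m : ℤ) ^ 2) (g ρ (j + 1)) : ℝ) (mainT D (g ρ (j + 1)))
      (dens D * Nat.primeCounting (g ρ (j + 1)))
    linarith
  have hpij : (Nat.primeCounting (g ρ (j + 1)) : ℝ) ≤ (1 + ε₁) * Nat.primeCounting (g ρ j) :=
    hpi _ _ (hJ0.trans hgg) (hgx.trans hxg) hstep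
  have hfin := interp (δ := dens D) (e := ε₁) (P0 := (Nat.primeCounting (g ρ j) : ℝ))
    (P := (Nat.primeCounting x : ℝ)) (P1 := (Nat.primeCounting (g ρ (j + 1)) : ℝ))
    (A0 := (cnt (D * (m : ℤ) ^ 2) (g ρ j) : ℝ)) (A := (cnt (D * (m : ℤ) ^ 2) x : ℝ))
    (A1 := (cnt (D * (m : ℤ) ^ 2) (g ρ (j + 1)) : ℝ)) hε₁ hε₁1 (Nat.cast_nonneg _)
    (by exact_mod_cast Nat.monotone_primeCounting hgx)
    (by exact_mod_cast Nat.monotone_primeCounting hxg) hpij
    (by exact_mod_cast cnt_mono _ hgx) (by exact_mod_cast cnt_mono _ hxg) ha0 ha1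
  have hlast : (|dens D| + 3) * ε₁ * (Nat.primeCounting x : ℝ) ≤ ε * (Nat.primeCounting x : ℝ) := by
    gcongr
  linarith

/-- the conditions on `ℓ = log M` that we need -/
lemma ev (ρ τ : ℝ) (hρ : 1 < ρ) (hρ2 : ρ ≤ 2) (hτ : 0 < τ) : ∀ᶠ l : ℝ in atTop,
    1 < l ∧ Real.log (1 + l) ≤ 2 * Real.log l ∧
    2 * Real.log ρ + l ^ 2 / (64 * Real.log l) ≤ l ^ 2 / (32 * Real.log l) ∧
    l ^ 2 / (32 * Real.log l) ≤ l ^ 2 ∧
    (l ^ 2 / Real.log ρ + 4) * (1 + l ^ 2) ^ 2 * Real.exp (-(l / 16)) ≤ τ := by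
  have hlρ : 0 < Real.log ρ := Real.log_pos hρ
  have hlρ1 : Real.log ρ ≤ 1 := by
    have := Real.log_le_sub_one_of_pos (show (0 : ℝ) < ρ by linarith)
    linarith
  have ht := (Real.tendsto_pow_mul_exp_neg_atTop_nhds_zero 6).comp
    ((tendsto_id (α := ℝ) (x := atTop)).atTop_div_const (show (0 : ℝ) < 16 by norm_num))
  set K : ℝ := 4 * (1 / Real.log ρ + 4) * 16 ^ 6 with hK
  have hK0 : 0 < K := by positivity
  have ht2 := ht.eventually (gt_mem_nhds (show (0 : ℝ) < τ / K by positivity))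
  filter_upwards [ht2, eventually_ge_atTop (128 : ℝ)] with l h1 h2
  have hl0 : 0 < l := by linarith
  have hll : 1 ≤ Real.log l := by
    rw [Real.le_log_iff_exp_le hl0]
    have := Real.exp_one_lt_d9
    linarith
  have hll2 : Real.log l ≤ l := by
    have := Real.log_le_sub_one_of_pos hl0
    linarith
  refine ⟨by linarith, ?_, ?_, ?_, ?_⟩
  · have : Real.log (1 + l) ≤ Real.log (l ^ 2) := Real.log_le_log (by linarith) (by nlinarith)
    rw [Real.log_pow] at this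
    exact_mod_cast this
  · have h3 : l ^ 2 / (32 * Real.log l) = l ^ 2 / (64 * Real.log l) + l ^ 2 / (64 * Real.log l) := by
      field_simp; norm_num
    have h4 : 2 ≤ l ^ 2 / (64 * Real.log l) := by
      rw [le_div_iff₀ (by positivity)]
      nlinarith
    linarith
  · exact div_le_self (by positivity) (by linarith)
  · simp only [Function.comp, id] at h1
    rw [lt_div_iff₀ hK0] at h1
    have h5 : (l ^ 2 / Real.log ρ + 4) ≤ (1 / Real.log ρ + 4) * l ^ 2 := by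
      have : l ^ 2 / Real.log ρ = 1 / Real.log ρ * l ^ 2 := by ring
      rw [this]
      nlinarith
    have h6 : (1 + l ^ 2) ^ 2 ≤ 4 * l ^ 4 := by
      calc (1 + l ^ 2) ^ 2 ≤ (2 * l ^ 2) ^ 2 := by
            gcongr
            nlinarith
        _ = 4 * l ^ 4 := by ring
    have h7 : (l / 16) ^ 6 * Real.exp (-(l / 16)) * K =
        ((1 / Real.log ρ + 4) * l ^ 2) * (4 * l ^ 4) * Real.exp (-(l / 16)) := by
      rw [hK]; ring
    rw [h7] at h1
    refine le_trans ?_ h1.le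
    gcongr

end Grid

open Grid in
theorem all_x_of (D : ℤ) (ε η : ℝ) (hε : 0 < ε) (hη : 0 < η)
    (hml : Tendsto (fun x : ℕ => mainT D x / (Nat.primeCounting x : ℝ)) atTop (nhds (dens D)))
    (hone : ∀ ε' : ℝ, 0 < ε' → ∃ (C : ℝ) (X : ℕ), 0 < C ∧ 2 ≤ X ∧
      ∀ (r M x : ℕ), 1 ≤ r → 1 ≤ M → X ≤ x → (x : ℝ) ^ 2 ≤ (M : ℝ) ^ r →
      ((bad D ε' (mainT D x) x M).card : ℝ) ≤
        C * M * ((1 + Real.log x) ^ 2 * ((x : ℝ) ^ (-(1 : ℝ) / (2 * r)) *
          (1 + Real.log M) ^ (((r : ℝ) - 1) / 2) + (x : ℝ) ^ (-(1 : ℝ) / 2)))) :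
    ∃ X : ℕ, ∀ᶠ M : ℕ in atTop,
      ((badAll D ε X (Real.exp ((Real.log M) ^ 2 / (64 * Real.log (Real.log M)))) M).card : ℝ) ≤
        η * M := by
  classical
  have hd := abs_nonneg (dens D)
  set ε₁ : ℝ := min 1 (ε / (|dens D| + 3)) with hε₁def
  have hε₁ : 0 < ε₁ := lt_min one_pos (by positivity)
  have hε₁1 : ε₁ ≤ 1 := min_le_left _ _
  have hεε : (|dens D| + 3) * ε₁ ≤ ε := by
    have : ε₁ ≤ ε / (|dens D| + 3) := min_le_right _ _
    rw [le_div_iff₀ (by positivity)] at this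
    linarith
  obtain ⟨C, X1, hC, hX1, hbad⟩ := hone (ε₁ / 2) (by positivity)
  obtain ⟨ρ, hρ, hρ2, X2, hX2, hpi⟩ := pi_ratio ε₁ hε₁
  rw [Metric.tendsto_atTop] at hml
  obtain ⟨X3, hX3⟩ := hml (ε₁ / 2) (by positivity)
  have hρρ : 0 < ρ ^ 2 - ρ := by nlinarith
  set X := max (max X1 X2) X3 with hX
  have hXX1 : X1 ≤ X := (le_max_left _ _).trans (le_max_left _ _)
  have hXX2 : X2 ≤ X := (le_max_right _ _).trans (le_max_left _ _)
  have hXX3 : X3 ≤ X := le_max_right _ _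
  have hlρ : 0 < Real.log ρ := Real.log_pos hρ
  obtain ⟨J, hJ⟩ := hh_tail hρ (η / (4 * C)) (by positivity)
  obtain ⟨J1, hJ1⟩ := pow_unbounded_of_one_lt (X + 1 / (ρ ^ 2 - ρ) : ℝ) hρ
  set J0 := max J J1 with hJ0
  have hgJ0 : (X : ℝ) + 1 / (ρ ^ 2 - ρ) ≤ g ρ J0 := by
    refine hJ1.le.trans ((pow_le_pow_right₀ hρ.le (le_max_right _ _)).trans (g_ge _))
  have hq : 0 < 1 / (ρ ^ 2 - ρ) := by positivity
  have hgJ0X : X ≤ g ρ J0 := by
    have : (X : ℝ) ≤ g ρ J0 := by linarith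
    exact_mod_cast this
  have hgJ01 : 1 ≤ (ρ ^ 2 - ρ) * g ρ J0 := by
    have h1 : 1 / (ρ ^ 2 - ρ) ≤ g ρ J0 := by
      have : (0 : ℝ) ≤ X := Nat.cast_nonneg _
      linarith
    rw [div_le_iff₀ hρρ] at h1
    linarith
  have hmain : ∀ x : ℕ, X ≤ x → |mainT D x - dens D * Nat.primeCounting x| ≤
      ε₁ / 2 * Nat.primeCounting x := by
    intro x hx
    have hx2 : 2 ≤ x := by omega
    have hpos : (0 : ℝ) < Nat.primeCounting x := by
      have h1 : Nat.primeCounting 2 ≤ Nat.primeCounting x := Nat.monotone_primeCounting hx2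
      have h2 : Nat.primeCounting 2 = 1 := by decide
      have : 0 < Nat.primeCounting x := by omega
      exact_mod_cast this
    have h1 := hX3 x (hXX3.trans hx)
    rw [Real.dist_eq] at h1
    have h2 : mainT D x - dens D * Nat.primeCounting x =
        (mainT D x / Nat.primeCounting x - dens D) * Nat.primeCounting x := by
      field_simp
    rw [h2, abs_mul, abs_of_pos hpos]
    gcongr
  refine ⟨g ρ J0, ?_⟩
  have hev := (Real.tendsto_log_atTop.comp tendsto_natCast_atTop_atTop).eventually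
    (ev ρ (η / (4 * C)) hρ hρ2 (by positivity))
  filter_upwards [hev, eventually_ge_atTop 1] with M hM hM1
  simp only [Function.comp] at hM
  obtain ⟨e1, e2, e3, e4, e5⟩ := hM
  set l := Real.log M with hl
  have hl0 : 0 < l := by linarith
  have hll : 0 < Real.log l := Real.log_pos e1
  have hM0 : (0 : ℝ) < M := by exact_mod_cast hM1
  set Y := Real.exp (l ^ 2 / (64 * Real.log l)) with hY
  have hYpos : 0 < Y := Real.exp_pos _
  have hρ0 : 0 < ρ := by linarith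
  -- log of grid points
  have hlogg : ∀ j : ℕ, (g ρ j : ℝ) ≤ ρ ^ 2 * Y → Real.log (g ρ j) ≤ l ^ 2 / (32 * Real.log l) := by
    intro j hj
    have h1 : Real.log (g ρ j) ≤ Real.log (ρ ^ 2 * Y) :=
      Real.log_le_log (by linarith [g_one_le hρ j]) hj
    rw [Real.log_mul (by positivity) hYpos.ne', Real.log_pow, hY, Real.log_exp] at h1
    push_cast at h1
    linarith
  set L : ℕ := ⌊l ^ 2 / Real.log ρ⌋₊ + 1 with hL
  have hLj : ∀ j : ℕ, (g ρ j : ℝ) ≤ ρ ^ 2 * Y → j ≤ L := by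
    intro j hj
    have h1 := hlogg j hj
    have h2 : (j : ℝ) * Real.log ρ ≤ Real.log (g ρ j) := by
      rw [← Real.log_pow]
      exact Real.log_le_log (by positivity) (g_ge j)
    have h3 : (j : ℝ) ≤ l ^ 2 / Real.log ρ := by
      rw [le_div_iff₀ hlρ]
      linarith
    have h4 : j ≤ ⌊l ^ 2 / Real.log ρ⌋₊ := Nat.le_floor h3
    omega
  have hsub := incl D hε₁ hε₁1 hεε hρ (fun x y hx => hpi x y (hXX2.trans hx)) hmain hgJ0X hgJ01
    hLj M
  set I := (Ico J0 (L + 1)).filter (fun j => (g ρ j : ℝ) ≤ ρ ^ 2 * Y) with hI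
  set E := (1 + l ^ 2) ^ 2 * Real.exp (-(l / 16)) with hE
  have hE0 : 0 ≤ E := by positivity
  have hterm : ∀ j ∈ I, ((bad D (ε₁ / 2) (mainT D (g ρ j)) (g ρ j) M).card : ℝ) ≤
      2 * C * M * (hh ρ j + E) := by
    intro j hj
    rw [hI, mem_filter, mem_Ico] at hj
    obtain ⟨⟨hj1, hj2⟩, hj3⟩ := hj
    have hgX : X1 ≤ g ρ j := hXX1.trans (hgJ0X.trans (g_mono hρ hj1))
    have hg1 := g_one_le hρ j
    have hg0 : (0 : ℝ) < g ρ j := by linarith
    have hlg0 : 0 ≤ Real.log (g ρ j) := Real.log_nonneg hg1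
    by_cases hc : ((g ρ j : ℕ) : ℝ) ^ 2 ≤ M
    · have h1 := hbad 1 M (g ρ j) le_rfl hM1 hgX (by simpa using hc)
      refine h1.trans ?_
      have h2 : ((1 : ℕ) : ℝ) = 1 := by norm_num
      rw [h2]
      have h3 : (1 + l) ^ (((1 : ℝ) - 1) / 2) = 1 := by norm_num
      rw [h3]
      have h4 : (-(1 : ℝ)) / (2 * 1) = -1 / 2 := by norm_num
      rw [h4, mul_one]
      unfold hh
      have h5 : 0 ≤ 2 * C * M * E := by positivity
      calc _ = 2 * C * M * ((1 + Real.log (g ρ j)) ^ 2 * ((g ρ j : ℕ) : ℝ) ^ (-(1 : ℝ) / 2)) := by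
            ring
        _ ≤ _ := by rw [mul_add (2 * C * M)]; linarith
    · push Not at hc
      have hgl := hlogg j hj3
      obtain ⟨r, hr1, hr2, hr3⟩ := case2 (M := M) (x := g ρ j) (by exact_mod_cast hg1) e1 hc hgl e2
      have h1 := hbad r M (g ρ j) hr1 hM1 hgX hr2
      refine h1.trans ?_
      have h6 : ((g ρ j : ℕ) : ℝ) ^ (-(1 : ℝ) / 2) ≤ Real.exp (-(l / 16)) := by
        rw [Real.rpow_def_of_pos hg0]
        refine Real.exp_le_exp.2 ?_
        have h7 : l < 2 * Real.log (g ρ j) := by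
          have := Real.log_lt_log hM0 hc
          rw [Real.log_pow] at this
          exact_mod_cast this
        linarith
      have h8 : (1 + Real.log (g ρ j)) ^ 2 ≤ (1 + l ^ 2) ^ 2 := by
        have : Real.log (g ρ j) ≤ l ^ 2 := hgl.trans e4
        gcongr
      have h9 : 0 ≤ hh ρ j := hh_nonneg j
      calc _ ≤ C * M * ((1 + l ^ 2) ^ 2 * (Real.exp (-(l / 16)) + Real.exp (-(l / 16)))) := by
            gcongr
        _ = 2 * C * M * E := by rw [hE]; ring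
        _ ≤ _ := by
          have : 0 ≤ 2 * C * M * hh ρ j := by positivity
          rw [mul_add (2 * C * M)]; linarith
  calc ((badAll D ε (g ρ J0) Y M).card : ℝ)
      ≤ ((I.biUnion (fun j => bad D (ε₁ / 2) (mainT D (g ρ j)) (g ρ j) M)).card : ℝ) := by
        exact_mod_cast card_le_card hsub
    _ ≤ ∑ j ∈ I, ((bad D (ε₁ / 2) (mainT D (g ρ j)) (g ρ j) M).card : ℝ) := by
        exact_mod_cast card_biUnion_le
    _ ≤ ∑ j ∈ I, 2 * C * M * (hh ρ j + E) := sum_le_sum hterm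
    _ ≤ ∑ j ∈ Ico J0 (L + 1), 2 * C * M * (hh ρ j + E) := by
        refine sum_le_sum_of_subset_of_nonneg (filter_subset _ _) (fun j _ _ => ?_)
        have := hh_nonneg (ρ := ρ) j
        positivity
    _ = 2 * C * M * (∑ j ∈ Ico J0 (L + 1), hh ρ j + (Ico J0 (L + 1)).card * E) := by
        rw [← mul_sum, sum_add_distrib, sum_const, nsmul_eq_mul]
    _ ≤ 2 * C * M * (η / (4 * C) + η / (4 * C)) := by
        have h1 := hJ J0 (le_max_left _ _) (L + 1)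
        have h2 : ((Ico J0 (L + 1)).card : ℝ) ≤ l ^ 2 / Real.log ρ + 4 := by
          rw [Nat.card_Ico]
          have h3 : ((L + 1 - J0 : ℕ) : ℝ) ≤ (L : ℝ) + 1 := by
            have : L + 1 - J0 ≤ L + 1 := Nat.sub_le _ _
            exact_mod_cast this
          have h4 : (L : ℝ) ≤ l ^ 2 / Real.log ρ + 1 := by
            rw [hL]; push_cast
            have := Nat.floor_le (show 0 ≤ l ^ 2 / Real.log ρ by positivity)
            linarith
          linarith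
        have h5 : ((Ico J0 (L + 1)).card : ℝ) * E ≤ η / (4 * C) := by
          calc _ ≤ (l ^ 2 / Real.log ρ + 4) * E := by gcongr
            _ = (l ^ 2 / Real.log ρ + 4) * (1 + l ^ 2) ^ 2 * Real.exp (-(l / 16)) := by
              rw [hE]; ring
            _ ≤ _ := e5
        gcongr
    _ = η * M := by field_simp; norm_num

end Pool.Agent.H771R4.AQ
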