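import Mathlib
import Pool.Agent.H771R4.AQ.Defs
import Pool.Agent.H386R2.Artin.SumG
import Pool.Agent.H386R2.Artin.SumH
import Pool.Agent.H386R2.Artin.ArtinLim
import Pool.Agent.H730R2.AB.LocalSq

set_option autoImplicit false

/-! # The main term: primes congruent to 3 modulo 4 -/

namespace Pool.Agent.H771R4.AQ

open Finset Filter Topology
open Pool.Agent.H386R2.Artin (PP PK PK_tendsto gL_eq totient_prod artinL artinC ArtinLim SumH hL gL
  artinLim sumH)
open Pool.Agent.H730R2.AA (rho)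

/-- primes `p ≤ x` congruent to 3 modulo 4 -/
def P34 (x : ℕ) : Finset ℕ := (PP x).filter (fun p => p % 4 = 3)

/-- primes `p ≤ x` congruent to 3 modulo 4, with `k ∣ p - 1` -/
def P3 (k x : ℕ) : Finset ℕ := (P34 x).filter (fun p => k ∣ p - 1)

lemma P3_card (k x : ℕ) : ((P3 k x).card : ℝ) =
    ((PK (Nat.lcm k 2) x).card : ℝ) - ((PK (Nat.lcm k 4) x).card : ℝ) := by
  have h1 : PK (Nat.lcm k 4) x ⊆ PK (Nat.lcm k 2) x := by
    intro p hp
    unfold PK at hp ⊢
    rw [mem_filter] at hp ⊢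
    refine ⟨hp.1, ?_⟩
    have h2 := hp.2
    rw [Nat.lcm_dvd_iff] at h2 ⊢
    exact ⟨h2.1, (by norm_num : 2 ∣ 4).trans h2.2⟩
  have h2 : P3 k x = PK (Nat.lcm k 2) x \ PK (Nat.lcm k 4) x := by
    ext p
    unfold P3 P34 PK
    simp only [Finset.mem_sdiff, Finset.mem_filter, Nat.lcm_dvd_iff]
    constructor
    · rintro ⟨⟨h3, h4⟩, h5⟩
      refine ⟨⟨h3, h5, by omega⟩, ?_⟩
      rintro ⟨_, _, h6⟩
      omega
    · rintro ⟨⟨h3, h4, h5⟩, h6⟩
      have hp : p.Prime := (mem_filter.1 h3).2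
      have := hp.two_le
      refine ⟨⟨h3, ?_⟩, h4⟩
      have h7 : ¬ 4 ∣ p - 1 := fun h => h6 ⟨h3, h4, h⟩
      omega
  rw [h2, card_sdiff_of_subset h1, Nat.cast_sub (card_le_card h1)]

lemma tot_lcm (k : ℕ) (hk : Squarefree k) :
    Nat.totient (Nat.lcm k 2) = Nat.totient k ∧ Nat.totient (Nat.lcm k 4) = 2 * Nat.totient k := by
  have h4 : Nat.totient 4 = 2 := by decide
  rcases Nat.even_or_odd k with h | h
  · obtain ⟨j, hj⟩ := h
    have hj2 : k = 2 * j := by omega
    have hodd : Odd j := by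
      rw [← Nat.not_even_iff_odd]
      rintro ⟨i, hi⟩
      have h5 : 2 * 2 ∣ k := ⟨i, by omega⟩
      have := hk 2 h5
      rw [Nat.isUnit_iff] at this
      omega
    have hc2 : Nat.Coprime 2 j := Nat.coprime_two_left.2 hodd
    have hc4 : Nat.Coprime 4 j := by
      have : (4 : ℕ) = 2 ^ 2 := by norm_num
      rw [this]
      exact Nat.Coprime.pow_left 2 hc2
    have e1 : Nat.lcm k 2 = k := Nat.lcm_eq_left ⟨j, hj2⟩
    have e2 : Nat.lcm k 4 = 4 * j := by
      rw [hj2]
      have : (4 : ℕ) = 2 * 2 := by norm_num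
      rw [this, Nat.lcm_mul_left]
      have : Nat.lcm j 2 = j * 2 := hc2.symm.lcm_eq_mul
      rw [this]; ring
    refine ⟨by rw [e1], ?_⟩
    rw [e2, hj2, Nat.totient_mul hc4, Nat.totient_mul hc2, h4, Nat.totient_two]
    ring
  · have hc2 : Nat.Coprime k 2 := Nat.coprime_two_right.2 h
    have hc4 : Nat.Coprime k 4 := by
      have : (4 : ℕ) = 2 ^ 2 := by norm_num
      rw [this]
      exact Nat.Coprime.pow_right 2 hc2
    rw [hc2.lcm_eq_mul, hc4.lcm_eq_mul, Nat.totient_mul hc2, Nat.totient_mul hc4, h4,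
      Nat.totient_two]
    constructor <;> ring

lemma P3_tendsto (k : ℕ) (hk : Squarefree k) :
    Tendsto (fun x : ℕ => ((P3 k x).card : ℝ) / (Nat.primeCounting x : ℝ)) atTop
      (𝓝 ((k.totient : ℝ)⁻¹ / 2)) := by
  have hk0 : k ≠ 0 := hk.ne_zero
  have h2 : 1 ≤ Nat.lcm k 2 := Nat.pos_of_ne_zero (Nat.lcm_ne_zero hk0 (by norm_num))
  have h4 : 1 ≤ Nat.lcm k 4 := Nat.pos_of_ne_zero (Nat.lcm_ne_zero hk0 (by norm_num))
  have h := (PK_tendsto _ h2).sub (PK_tendsto _ h4)
  rw [(tot_lcm k hk).1, (tot_lcm k hk).2] at h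
  have e : ((k.totient : ℝ)⁻¹ - ((2 * k.totient : ℕ) : ℝ)⁻¹) = (k.totient : ℝ)⁻¹ / 2 := by
    push_cast
    have : (k.totient : ℝ) ≠ 0 := by
      have := Nat.totient_pos.2 (Nat.pos_of_ne_zero hk0)
      exact_mod_cast this.ne'
    field_simp
    norm_num
  rw [e] at h
  refine h.congr fun x => ?_
  rw [P3_card, sub_div]

lemma sqf_prod (K : Finset ℕ) (hK : ∀ l ∈ K, l.Prime) : Squarefree (∏ l ∈ K, l) := by
  classical
  induction K using Finset.induction_on with
  | empty => simp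
  | insert a s ha ih =>
    rw [Finset.prod_insert ha]
    have hcop : Nat.Coprime a (∏ l ∈ s, l) := by
      apply Nat.Coprime.prod_right
      intro l hl
      rw [Nat.coprime_primes (hK a (Finset.mem_insert_self _ _)) (hK l (Finset.mem_insert_of_mem hl))]
      rintro rfl; exact ha hl
    rw [Nat.squarefree_mul hcop]
    exact ⟨(hK a (Finset.mem_insert_self _ _)).squarefree,
      ih fun l hl => hK l (Finset.mem_insert_of_mem hl)⟩

theorem sumG3 (L : ℕ) : Tendsto (fun x : ℕ => (∑ p ∈ P34 x, gL L (p - 1)) /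
    (Nat.primeCounting x : ℝ)) atTop (𝓝 (artinL L / 2)) := by
  classical
  have h1 : ∀ x : ℕ, (∑ p ∈ P34 x, gL L (p - 1)) / (Nat.primeCounting x : ℝ) =
      ∑ K ∈ (PP L).powerset, (∏ l ∈ K, (-(1 / (l : ℝ)))) *
        (((P3 (∏ l ∈ K, l) x).card : ℝ) / (Nat.primeCounting x : ℝ)) := by
    intro x
    have : ∑ p ∈ P34 x, gL L (p - 1) = ∑ K ∈ (PP L).powerset, (∏ l ∈ K, (-(1 / (l : ℝ)))) *
        ((P3 (∏ l ∈ K, l) x).card : ℝ) := by
      rw [Finset.sum_congr rfl (fun p hp => gL_eq L (p - 1) (by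
        simp only [P34, PP, mem_filter, mem_range] at hp
        have := hp.1.2.two_le
        omega)), Finset.sum_comm]
      apply Finset.sum_congr rfl
      intro K _
      rw [← Finset.mul_sum]
      congr 1
      rw [P3, Finset.card_filter]
      push_cast
      rfl
    rw [this, Finset.sum_div]
    apply Finset.sum_congr rfl
    intro K _
    rw [mul_div_assoc]
  simp_rw [h1]
  have h2 : artinL L / 2 = ∑ K ∈ (PP L).powerset, (∏ l ∈ K, (-(1 / (l : ℝ)))) *
      (((∏ l ∈ K, l).totient : ℝ)⁻¹ / 2) := by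
    unfold artinL
    have : ∏ l ∈ PP L, (1 - 1 / ((l : ℝ) * ((l : ℝ) - 1))) =
        ∏ l ∈ PP L, (-(1 / ((l : ℝ) * ((l : ℝ) - 1))) + 1) := by
      apply Finset.prod_congr rfl
      intro l _; ring
    rw [this, Finset.prod_add, Finset.sum_div]
    apply Finset.sum_congr rfl
    intro K hK
    rw [Finset.mem_powerset] at hK
    have hprime : ∀ l ∈ K, l.Prime := fun l hl => (Finset.mem_filter.mp (hK hl)).2
    rw [Finset.prod_const_one, mul_one, ← mul_div_assoc]
    congr 1
    rw [totient_prod K hprime, ← Finset.prod_inv_distrib, ← Finset.prod_mul_distrib]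
    apply Finset.prod_congr rfl
    intro l hl
    rw [one_div, mul_inv]
    ring
  rw [h2]
  apply tendsto_finsetSum
  intro K hK
  rw [Finset.mem_powerset] at hK
  have hprime : ∀ l ∈ K, l.Prime := fun l hl => (Finset.mem_filter.mp (hK hl)).2
  apply Tendsto.const_mul
  exact P3_tendsto _ (sqf_prod K hprime)

lemma hL_nonneg (L n : ℕ) : 0 ≤ hL L n := by
  unfold hL
  exact Finset.sum_nonneg fun l _ => by positivity

theorem main_lim (D : ℤ) (hD : D ≠ 0) :
    Tendsto (fun x : ℕ => mainT D x / (Nat.primeCounting x : ℝ)) atTop (𝓝 (dens D)) := by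
  classical
  obtain ⟨C, hC, h5⟩ := sumH
  have h7 : Tendsto artinL atTop (𝓝 artinC) := artinLim
  rw [Metric.tendsto_atTop]
  intro ε hε
  have hLlim : ∀ᶠ L : ℕ in atTop, |artinL L - artinC| < ε / 4 := by
    have := (Metric.tendsto_nhds.1 h7) (ε / 4) (by positivity)
    simpa [Real.dist_eq] using this
  have hCL : ∀ᶠ L : ℕ in atTop, C / (L : ℝ) < ε / 8 := by
    have : Tendsto (fun L : ℕ => C / (L : ℝ)) atTop (𝓝 0) :=
      tendsto_const_nhds.div_atTop tendsto_natCast_atTop_atTop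
    exact this.eventually (gt_mem_nhds (by positivity))
  obtain ⟨L, ⟨hL1, hL2⟩, hL3⟩ := ((hLlim.and hCL).and (eventually_ge_atTop 1)).exists
  obtain ⟨x₅, hx₅⟩ := h5 L hL3
  have hG : ∀ᶠ x : ℕ in atTop, |(∑ p ∈ P34 x, gL L (p - 1)) / (Nat.primeCounting x : ℝ) -
      artinL L / 2| < ε / 8 := by
    have := (Metric.tendsto_nhds.1 (sumG3 L)) (ε / 8) (by positivity)
    simpa [Real.dist_eq] using this
  set K : ℕ := D.natAbs.primeFactors.card with hK
  have hπ : ∀ᶠ x : ℕ in atTop, 8 * (2 * (K : ℝ) + 1) / ε ≤ (Nat.primeCounting x : ℝ) :=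
    (Filter.tendsto_atTop.mp (tendsto_natCast_atTop_atTop.comp
      Nat.tendsto_primeCounting) _)
  obtain ⟨x₀, hx₀⟩ := eventually_atTop.1 ((hG.and hπ).and (eventually_ge_atTop x₅))
  refine ⟨x₀, fun x hx => ?_⟩
  obtain ⟨⟨g1, g2⟩, g3⟩ := hx₀ x hx
  set P : ℝ := (Nat.primeCounting x : ℝ) with hP
  have hP0 : 0 < P := lt_of_lt_of_le (by positivity) g2
  have hh := hx₅ x g3
  -- compare mainT with the sum over all primes = 3 mod 4
  have hsub : PR D x ⊆ P34 x := by
    intro p hp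
    unfold PR at hp
    unfold P34 PP
    rw [mem_filter] at hp
    rw [mem_filter, mem_filter]
    exact ⟨⟨hp.1, hp.2.1⟩, hp.2.2.1⟩
  have hr0 : ∀ p, 0 ≤ rho p := fun p => by unfold rho; positivity
  have hr1 : ∀ p, rho p ≤ 1 := by
    intro p
    unfold rho
    apply div_le_one_of_le₀ _ (Nat.cast_nonneg _)
    exact_mod_cast Nat.totient_le _
  have h8 : |∑ p ∈ P34 x, 2 * rho p - mainT D x| ≤ 2 * K := by
    unfold mainT
    rw [← Finset.sum_sdiff hsub, add_sub_cancel_right, abs_of_nonneg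
      (Finset.sum_nonneg fun p _ => by have := hr0 p; positivity)]
    calc ∑ p ∈ P34 x \ PR D x, 2 * rho p ≤ ∑ p ∈ P34 x \ PR D x, (2 : ℝ) :=
          Finset.sum_le_sum fun p _ => by have := hr1 p; linarith
      _ = 2 * ((P34 x \ PR D x).card : ℝ) := by
          rw [Finset.sum_const, nsmul_eq_mul, mul_comm]
      _ ≤ 2 * (K : ℝ) := by
          have h9 : P34 x \ PR D x ⊆ D.natAbs.primeFactors := by
            intro p hp
            unfold P34 PP PR at hp
            simp only [Finset.mem_sdiff, Finset.mem_filter] at hp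
            obtain ⟨⟨⟨b1, b2⟩, b3⟩, b4⟩ := hp
            rw [Nat.mem_primeFactors]
            refine ⟨b2, ?_, by simpa using hD⟩
            by_contra h10
            exact b4 ⟨b1, b2, b3, fun h11 => h10 (Int.natCast_dvd.1 h11)⟩
          have := Finset.card_le_card h9
          have h12 : ((P34 x \ PR D x).card : ℝ) ≤ K := by exact_mod_cast this
          linarith
  have h13 : |∑ p ∈ P34 x, 2 * gL L (p - 1) - ∑ p ∈ P34 x, 2 * rho p| ≤ 2 * (C / L * P) := by
    rw [← Finset.sum_sub_distrib]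
    refine (Finset.abs_sum_le_sum_abs _ _).trans ?_
    calc ∑ p ∈ P34 x, |2 * gL L (p - 1) - 2 * rho p| ≤ ∑ p ∈ P34 x, 2 * hL L (p - 1) := by
          apply Finset.sum_le_sum
          intro p hp
          have hpp : p.Prime := by
            unfold P34 PP at hp
            rw [mem_filter, mem_filter] at hp
            exact hp.1.2
          have : Fact p.Prime := ⟨hpp⟩
          obtain ⟨c1, c2⟩ := Pool.Agent.H730R2.AB.gL_rho (p := p) L
          rw [abs_of_nonneg (by linarith)]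
          linarith
      _ ≤ ∑ p ∈ PP x, 2 * hL L (p - 1) := by
          apply Finset.sum_le_sum_of_subset_of_nonneg (Finset.filter_subset _ _)
          intro p _ _
          have := hL_nonneg L (p - 1)
          positivity
      _ = 2 * ∑ p ∈ PP x, hL L (p - 1) := by rw [Finset.mul_sum]
      _ ≤ 2 * (C / L * P) := by linarith
  have h14 : |∑ p ∈ P34 x, 2 * gL L (p - 1) - artinL L * P| ≤ 2 * (ε / 8 * P) := by
    have e1 : ∑ p ∈ P34 x, 2 * gL L (p - 1) - artinL L * P =
        2 * (((∑ p ∈ P34 x, gL L (p - 1)) / P - artinL L / 2) * P) := by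
      rw [← Finset.mul_sum]
      field_simp
    rw [e1, abs_mul, abs_mul, abs_of_pos hP0, abs_of_pos (by norm_num : (0 : ℝ) < 2)]
    have := mul_le_mul_of_nonneg_right g1.le hP0.le
    linarith
  have h15 : |artinL L * P - artinC * P| ≤ ε / 4 * P := by
    rw [← sub_mul, abs_mul, abs_of_pos hP0]
    exact mul_le_mul_of_nonneg_right hL1.le hP0.le
  have h16 : |mainT D x - artinC * P| < ε * P := by
    have t1 : 2 * (C / L * P) ≤ 2 * (ε / 8 * P) := by
      have := mul_le_mul_of_nonneg_right hL2.le hP0.le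
      linarith
    have t2 : 2 * (K : ℝ) < ε / 8 * P := by
      rw [div_le_iff₀ hε] at g2
      have : 0 ≤ (K : ℝ) := Nat.cast_nonneg _
      linarith
    rw [abs_le] at h8 h13 h14 h15
    rw [abs_lt]
    have : 0 < ε * P := by positivity
    constructor
    · linarith [h8.1, h8.2, h13.1, h13.2, h14.1, h14.2, h15.1, h15.2]
    · linarith [h8.1, h8.2, h13.1, h13.2, h14.1, h14.2, h15.1, h15.2]
  rw [Real.dist_eq]
  have h17 : mainT D x / P - dens D = (mainT D x - artinC * P) / P := by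
    unfold dens
    field_simp
  rw [h17, abs_div, abs_of_pos hP0, div_lt_iff₀ hP0]
  exact h16

end Pool.Agent.H771R4.AQ
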