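import Mathlib
import Pool.Agent.H771R4.AQ.Defs
import Pool.Agent.H730R2.AB.Stubs
import Pool.Agent.H730R2.AA.Expand
import Pool.Agent.H386R2.Artin.Stubs

set_option autoImplicit false

/-! # One prime `p` congruent to 3 modulo 4 -/

namespace Pool.Agent.H771R4.AQ

open Finset
open Pool.Agent.H386R2.Artin (Good hL gL LocalCount)
open Pool.Agent.H730R2.AB (LocalSq)
open Pool.Agent.H730R2.AA (rho NT expand)

section
variable {p : ℕ} [hp : Fact p.Prime]

lemma adm_A (h4 : p % 4 = 3) (a : ZMod p) (h : orderOf a = p - 1) : 2 * orderOf (-a) = p - 1 := by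
  obtain ⟨k, hk⟩ : ∃ k, p - 1 = 2 * k ∧ k % 2 = 1 := ⟨(p - 1) / 2, by omega, by omega⟩
  obtain ⟨hk1, hk2⟩ := hk
  have hkpos : 0 < k := by omega
  have hodd : Odd k := Nat.odd_iff.2 hk2
  have ha : a ^ (2 * k) = 1 := by rw [← hk1, ← h]; exact pow_orderOf_eq_one a
  have hak : a ^ k = -1 := by
    have h1 : (a ^ k - 1) * (a ^ k + 1) = 0 := by
      have : (a ^ k) ^ 2 = 1 := by rw [← pow_mul, mul_comm]; exact ha
      linear_combination this
    rcases mul_eq_zero.1 h1 with h2 | h2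
    · exfalso
      have h3 : a ^ k = 1 := by linear_combination h2
      have h4 := orderOf_dvd_of_pow_eq_one h3
      rw [h, hk1] at h4
      have := Nat.le_of_dvd hkpos h4
      omega
    · linear_combination h2
  have hnk : (-a) ^ k = 1 := by
    rw [hodd.neg_pow, hak, neg_neg]
  have h5 : orderOf (-a) ∣ k := orderOf_dvd_of_pow_eq_one hnk
  have h6 : a ^ (2 * orderOf (-a)) = 1 := by
    have : (-a) ^ (2 * orderOf (-a)) = 1 := by
      rw [mul_comm, pow_mul, pow_orderOf_eq_one, one_pow]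
    rwa [(even_two_mul _).neg_pow] at this
  have h7 := orderOf_dvd_of_pow_eq_one h6
  rw [h, hk1] at h7
  have h8 : k ∣ orderOf (-a) := Nat.dvd_of_mul_dvd_mul_left (by norm_num) h7
  have h9 := Nat.dvd_antisymm h5 h8
  omega

lemma adm_B (h4 : p % 4 = 3) (a : ZMod p) (h : 2 * orderOf a = p - 1) : orderOf (-a) = p - 1 := by
  obtain ⟨k, hk⟩ : ∃ k, p - 1 = 2 * k ∧ k % 2 = 1 := ⟨(p - 1) / 2, by omega, by omega⟩
  obtain ⟨hk1, hk2⟩ := hk
  have hkpos : 0 < k := by omega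
  have hodd : Odd k := Nat.odd_iff.2 hk2
  have hord : orderOf a = k := by omega
  have hak : a ^ k = 1 := by rw [← hord]; exact pow_orderOf_eq_one a
  have hnk : (-a) ^ k = -1 := by rw [hodd.neg_pow, hak]
  have h1 : (-a) ^ (2 * k) = 1 := by
    rw [mul_comm, pow_mul, hnk]; norm_num
  have h2 : orderOf (-a) ∣ 2 * k := orderOf_dvd_of_pow_eq_one h1
  have h6 : a ^ (2 * orderOf (-a)) = 1 := by
    have : (-a) ^ (2 * orderOf (-a)) = 1 := by
      rw [mul_comm, pow_mul, pow_orderOf_eq_one, one_pow]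
    rwa [(even_two_mul _).neg_pow] at this
  have h7 := orderOf_dvd_of_pow_eq_one h6
  rw [hord] at h7
  have h8 : k ∣ orderOf (-a) := (Nat.Coprime.dvd_of_dvd_mul_left
    (Nat.coprime_two_right.2 hodd) h7)
  obtain ⟨c, hc⟩ := h8
  rw [hc] at h2
  have h9 : c ∣ 2 := by
    have : k * c ∣ k * 2 := by rwa [mul_comm k 2]
    exact Nat.dvd_of_mul_dvd_mul_left hkpos this
  rcases (Nat.dvd_prime Nat.prime_two).1 h9 with h10 | h10
  · exfalso
    rw [h10, mul_one] at hc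
    have h11 : (-a) ^ k = 1 := by rw [← hc]; exact pow_orderOf_eq_one _
    rw [hnk] at h11
    have h12 : ((2 : ℕ) : ZMod p) = 0 := by
      push_cast
      linear_combination -h11
    rw [ZMod.natCast_eq_zero_iff] at h12
    have := (Nat.prime_dvd_prime_iff_eq hp.out Nat.prime_two).1 h12
    omega
  · rw [hc, h10, hk1, mul_comm]

lemma adm_iff (h4 : p % 4 = 3) (a : ZMod p) :
    Adm p a ↔ orderOf a = p - 1 ∨ orderOf (-a) = p - 1 := by
  unfold Adm
  constructor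
  · rintro (h | h)
    · exact Or.inl h
    · exact Or.inr (adm_B h4 a h)
  · rintro (h | h)
    · exact Or.inl h
    · right
      have := adm_A h4 (-a) h
      rwa [neg_neg] at this

lemma adm_excl (h4 : p % 4 = 3) (a : ZMod p) (h : orderOf a = p - 1) :
    ¬ orderOf (-a) = p - 1 := by
  intro h2
  have := adm_A h4 a h
  omega

open Classical in
lemma card_adm (h4 : p % 4 = 3) (E : Finset ℕ) (f : ℕ → ZMod p) :
    (E.filter (fun q => Adm p (f q))).card =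
      (E.filter (fun q => orderOf (f q) = p - 1)).card +
      (E.filter (fun q => orderOf (-(f q)) = p - 1)).card := by
  rw [← card_union_of_disjoint]
  · congr 1
    rw [← filter_or]
    apply filter_congr
    intro q _
    exact adm_iff h4 (f q)
  · rw [disjoint_filter]
    intro q _ h
    exact adm_excl h4 (f q) h

lemma jac_neg (h4 : p % 4 = 3) (D : ℤ) : jacobiSym (-D) p = - jacobiSym D p := by
  rw [jacobiSym.neg _ (Nat.odd_iff.2 (by omega)), ZMod.χ₄_nat_three_mod_four h4]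
  ring

end

open Classical in
/-- the local count, `n = D (m q) ^ 2` -/
def LocalA : Prop := ∀ (p : ℕ), p.Prime → p % 4 = 3 → ∀ (E : Finset ℕ) (M : ℝ) (D m : ℤ) (L : ℕ),
  2 ≤ L → (∀ q ∈ E, q.Prime) → 0 ≤ M → Good E M p → ¬ (p : ℤ) ∣ D → ¬ (p : ℤ) ∣ m →
    |((E.filter (fun q : ℕ => Adm p ((D * (m * (q : ℤ)) ^ 2 : ℤ) : ZMod p))).card : ℝ) -
        (E.card : ℝ) * (2 * rho p)| ≤
      2 * (1 + 2 ^ L * M + 3 * (E.card : ℝ) * hL L (p - 1) + ((p - 1).primeFactors.card : ℝ) * M)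

theorem localA (h : LocalSq) : LocalA := by
  classical
  intro p hp h4 E M D m L hL2 hE hM hG hD hm
  have : Fact p.Prime := ⟨hp⟩
  have hp2 : p ≠ 2 := by omega
  have h1 := h p hp hp2 E M D m L hL2 hE hM hG hD hm
  have h2 := h p hp hp2 E M (-D) m L hL2 hE hM hG (by rwa [dvd_neg]) hm
  rw [jac_neg h4] at h2
  have h3 := card_adm h4 E (fun q : ℕ => ((D * (m * (q : ℤ)) ^ 2 : ℤ) : ZMod p))
  have h5 : (E.filter (fun q : ℕ => orderOf (-((D * (m * (q : ℤ)) ^ 2 : ℤ) : ZMod p)) = p - 1)) =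
      (E.filter (fun q : ℕ => orderOf (((-D) * (m * (q : ℤ)) ^ 2 : ℤ) : ZMod p) = p - 1)) := by
    apply filter_congr
    intro q _
    have : (((-D) * (m * (q : ℤ)) ^ 2 : ℤ) : ZMod p) = -((D * (m * (q : ℤ)) ^ 2 : ℤ) : ZMod p) := by
      push_cast; ring
    rw [this]
  rw [h5] at h3
  have h6 : ((E.filter (fun q : ℕ => Adm p ((D * (m * (q : ℤ)) ^ 2 : ℤ) : ZMod p))).card : ℝ) =
      ((E.filter (fun q : ℕ => orderOf ((D * (m * (q : ℤ)) ^ 2 : ℤ) : ZMod p) = p - 1)).card : ℝ) +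
      ((E.filter (fun q : ℕ => orderOf (((-D) * (m * (q : ℤ)) ^ 2 : ℤ) : ZMod p) = p - 1)).card : ℝ) := by
    have h3' := congrArg (fun n : ℕ => (n : ℝ)) h3
    simp only [Nat.cast_add] at h3'
    convert h3'
  rw [h6]
  push_cast at h1 h2 ⊢
  rw [abs_le] at h1 h2 ⊢
  constructor
  · linarith [h1.1, h2.1]
  · linarith [h1.2, h2.2]

open Classical in
/-- the local count, `n = m q` -/
def LocalB : Prop := ∀ (p : ℕ), p.Prime → p % 4 = 3 → ∀ (E : Finset ℕ) (M : ℝ) (m : ℤ) (L : ℕ),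
  (∀ q ∈ E, q.Prime) → 0 ≤ M → Good E M p → ¬ (p : ℤ) ∣ m →
    |((E.filter (fun q : ℕ => Adm p ((m * (q : ℤ) : ℤ) : ZMod p))).card : ℝ) -
        (E.card : ℝ) * (2 * gL L (p - 1))| ≤
      2 * (1 + 2 ^ L * M + (E.card : ℝ) * hL L (p - 1) + ((p - 1).primeFactors.card : ℝ) * M)

theorem localB (h : LocalCount) : LocalB := by
  classical
  intro p hp h4 E M m L hE hM hG hm
  have : Fact p.Prime := ⟨hp⟩
  have h1 := h p hp E M m L hE hM hG hm
  have h2 := h p hp E M (-m) L hE hM hG (by rwa [dvd_neg])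
  have h3 := card_adm h4 E (fun q : ℕ => ((m * (q : ℤ) : ℤ) : ZMod p))
  have h5 : (E.filter (fun q : ℕ => orderOf (-((m * (q : ℤ) : ℤ) : ZMod p)) = p - 1)) =
      (E.filter (fun q : ℕ => orderOf (((-m) * (q : ℤ) : ℤ) : ZMod p) = p - 1)) := by
    apply filter_congr
    intro q _
    have : (((-m) * (q : ℤ) : ℤ) : ZMod p) = -((m * (q : ℤ) : ℤ) : ZMod p) := by
      push_cast; ring
    rw [this]
  rw [h5] at h3
  have h6 : ((E.filter (fun q : ℕ => Adm p ((m * (q : ℤ) : ℤ) : ZMod p))).card : ℝ) =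
      ((E.filter (fun q : ℕ => orderOf ((m * (q : ℤ) : ℤ) : ZMod p) = p - 1)).card : ℝ) +
      ((E.filter (fun q : ℕ => orderOf (((-m) * (q : ℤ) : ℤ) : ZMod p) = p - 1)).card : ℝ) := by
    have h3' := congrArg (fun n : ℕ => (n : ℝ)) h3
    simp only [Nat.cast_add] at h3'
    convert h3'
  rw [h6]
  rw [abs_le] at h1 h2 ⊢
  constructor
  · linarith [h1.1, h2.1]
  · linarith [h1.2, h2.2]

/-- the expansion in characters -/
theorem expandA (p : ℕ) [hp : Fact p.Prime] (h4 : p % 4 = 3) (D : ℤ) (hD : ¬ ((p : ℤ) ∣ D)) :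
    ∃ β : DirichletCharacter ℂ p → ℂ,
      (∀ m : ℕ, (open Classical in if Adm p (((D * (m : ℤ) ^ 2 : ℤ)) : ZMod p) then (1 : ℂ) else 0) =
        (if p ∣ m then 0 else ((2 * rho p : ℝ) : ℂ)) +
        2 * ∑ χ ∈ NT p, β χ * χ (m : ZMod p)) ∧
      (∑ χ, ‖β χ‖ ≤ ((p - 1).divisors.card : ℝ)) ∧ ∀ χ, ‖β χ‖ ≤ 2 := by
  classical
  have hp2 : p ≠ 2 := by omega
  obtain ⟨β₁, a1, a2, a3⟩ := expand p hp2 D hD
  obtain ⟨β₂, b1, b2, b3⟩ := expand p hp2 (-D) (by rwa [dvd_neg])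
  refine ⟨fun χ => (β₁ χ + β₂ χ) / 2, ?_, ?_, ?_⟩
  · intro m
    have h1 := a1 m
    have h2 := b1 m
    have h3 : (((-D) * (m : ℤ) ^ 2 : ℤ) : ZMod p) = -((D * (m : ℤ) ^ 2 : ℤ) : ZMod p) := by
      push_cast; ring
    rw [h3, jac_neg h4] at h2
    have h5 : (if Adm p (((D * (m : ℤ) ^ 2 : ℤ)) : ZMod p) then (1 : ℂ) else 0) =
        (if orderOf (((D * (m : ℤ) ^ 2 : ℤ)) : ZMod p) = p - 1 then (1 : ℂ) else 0) +
        (if orderOf (-((D * (m : ℤ) ^ 2 : ℤ) : ZMod p)) = p - 1 then (1 : ℂ) else 0) := by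
      by_cases c1 : orderOf (((D * (m : ℤ) ^ 2 : ℤ)) : ZMod p) = p - 1
      · have c2 := adm_excl h4 _ c1
        rw [if_pos ((adm_iff h4 _).2 (Or.inl c1)), if_pos c1, if_neg c2, add_zero]
      · by_cases c2 : orderOf (-((D * (m : ℤ) ^ 2 : ℤ) : ZMod p)) = p - 1
        · rw [if_pos ((adm_iff h4 _).2 (Or.inr c2)), if_neg c1, if_pos c2, zero_add]
        · rw [if_neg (fun h => (((adm_iff h4 _).1 h).elim c1 c2)), if_neg c1, if_neg c2, add_zero]
    rw [h5, h1, h2]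
    have h6 : 2 * ∑ χ ∈ NT p, (β₁ χ + β₂ χ) / 2 * χ (m : ZMod p) =
        ∑ χ ∈ NT p, β₁ χ * χ (m : ZMod p) + ∑ χ ∈ NT p, β₂ χ * χ (m : ZMod p) := by
      rw [mul_sum, ← sum_add_distrib]
      apply sum_congr rfl
      intro χ _
      ring
    rw [h6]
    split_ifs
    · ring
    · push_cast
      ring
  · calc ∑ χ, ‖(β₁ χ + β₂ χ) / 2‖ ≤ ∑ χ, (‖β₁ χ‖ + ‖β₂ χ‖) / 2 := by
          apply sum_le_sum
          intro χ _
          rw [norm_div]
          have : ‖(2 : ℂ)‖ = 2 := by simp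
          rw [this]
          exact div_le_div_of_nonneg_right (norm_add_le _ _) (by norm_num)
      _ = (∑ χ, ‖β₁ χ‖ + ∑ χ, ‖β₂ χ‖) / 2 := by rw [← sum_div, sum_add_distrib]
      _ ≤ _ := by linarith
  · intro χ
    rw [norm_div]
    have : ‖(2 : ℂ)‖ = 2 := by simp
    rw [this]
    have := norm_add_le (β₁ χ) (β₂ χ)
    have := a3 χ
    have := b3 χ
    linarith

end Pool.Agent.H771R4.AQ
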