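import Mathlib
import Pool.Agent.H771R4.AQ.Defs
import Pool.Agent.H771R4.AQ.Local
import Pool.Agent.H730R2.AB.Stubs
import Pool.Agent.H386R2.Artin.Average

set_option autoImplicit false

/-! # Almost all primes, in a square class: `n = D (m q)^2`, `q` prime -/

namespace Pool.Agent.H771R4.AQ

open Finset Filter Topology
open Pool.Agent.H386R2.Artin (PP Good hL gL card_PP ev1 ev2 ev3 ev4 ev5 tlog card_dvd pi_lower
  OmegaLarge SumH)
open Pool.Agent.H730R2.AA (rho)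
open Pool.Agent.H730R2.AB (FewBad2)

open Classical in
lemma cnt_sum (E : Finset ℕ) (D m : ℤ) (x : ℕ) :
    ∑ q ∈ E, (cnt (D * (m * (q : ℤ)) ^ 2) x : ℝ) =
      ∑ p ∈ PP x, if p % 4 = 3 then ((E.filter (fun q : ℕ =>
        Adm p ((D * (m * (q : ℤ)) ^ 2 : ℤ) : ZMod p))).card : ℝ) else 0 := by
  have h1 : ∀ q : ℕ, (cnt (D * (m * (q : ℤ)) ^ 2) x : ℝ) =
      ∑ p ∈ PP x, if p % 4 = 3 ∧ Adm p ((D * (m * (q : ℤ)) ^ 2 : ℤ) : ZMod p)
        then (1 : ℝ) else 0 := by
    intro q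
    unfold cnt PP
    rw [Finset.sum_boole, Finset.filter_filter]
  simp_rw [h1]
  rw [Finset.sum_comm]
  refine Finset.sum_congr rfl fun p _ => ?_
  split_ifs with h
  · rw [Finset.card_filter]
    push_cast
    refine Finset.sum_congr rfl fun q _ => ?_
    simp [h]
  · simp [h]

lemma rho_nonneg (p : ℕ) : 0 ≤ rho p := by unfold rho; positivity

lemma rho_le_one (p : ℕ) : rho p ≤ 1 := by
  unfold rho
  rcases Nat.eq_zero_or_pos (p - 1) with h | h
  · rw [h]; simp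
  · rw [div_le_one (by exact_mod_cast h)]
    exact_mod_cast Nat.totient_le _

theorem average (h3 : LocalA) (h5 : SumH) (h6 : OmegaLarge) (h2 : FewBad2) (D : ℤ) (hD : D ≠ 0) :
    ∃ C1 : ℝ, 6 ≤ C1 ∧ ∀ ε : ℝ, 0 < ε → ∃ x₀ : ℕ,
    ∀ x : ℕ, x₀ ≤ x → ∀ y : ℕ, (Real.log x) ^ C1 ≤ (y : ℝ) → y ≤ x →
      ∀ E : Finset ℕ, (∀ q ∈ E, q.Prime ∧ q ≤ y) →
        (Nat.primeCounting y : ℝ) / (Real.log x) ^ 2 ≤ (E.card : ℝ) →
          ∀ m : ℤ, m ≠ 0 → Real.log |(m : ℝ)| ≤ √x →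
            |∑ q ∈ E, (cnt (D * (m * (q : ℤ)) ^ 2) x : ℝ) - mainT D x * E.card| ≤
              ε * Nat.primeCounting x * E.card := by
  classical
  obtain ⟨C0, x₁, hC0, hx₁⟩ := h2
  obtain ⟨C, hC, h5⟩ := h5
  obtain ⟨x₆, hx₆⟩ := h6
  obtain ⟨y₀, hy3, hy₀⟩ := pi_lower
  refine ⟨max C0 6, le_max_right _ _, fun ε hε => ?_⟩
  set ε' : ℝ := ε / 20 with hε'd
  have hε' : 0 < ε' := by positivity
  have hCL : ∀ᶠ L : ℕ in atTop, C / (L : ℝ) < ε' := by
    have : Tendsto (fun L : ℕ => C / (L : ℝ)) atTop (𝓝 0) :=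
      tendsto_const_nhds.div_atTop tendsto_natCast_atTop_atTop
    exact this.eventually (gt_mem_nhds hε')
  obtain ⟨L, hL2, hL3⟩ := (hCL.and (eventually_ge_atTop 2)).exists
  obtain ⟨x₅, hx₅⟩ := h5 L (by omega)
  have hDlog : ∀ᶠ x : ℕ in atTop, 2 * Real.log |((2 * D : ℤ) : ℝ)| ≤ √(x : ℝ) := by
    have h1 : Tendsto (fun x : ℕ => √(x : ℝ)) atTop atTop :=
      Real.tendsto_sqrt_atTop.comp tendsto_natCast_atTop_atTop
    exact h1.eventually_ge_atTop _
  have hev := ((((((ev1 (1/4) ε' (by norm_num) hε').and (ev2 (ε' / 2) (by positivity))).and (ev3 ε' hε')).and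
    (ev4 ε' 1 hε' (by norm_num))).and (ev5 ε' 2 (2 ^ L) hε' (by norm_num))).and
    ((tlog.eventually_ge_atTop (max 3 (y₀ : ℝ))).and hDlog)).and
    (((eventually_ge_atTop x₁).and (eventually_ge_atTop x₅)).and
      ((eventually_ge_atTop x₆).and (eventually_ge_atTop y₀)))
  obtain ⟨x₀, hx₀⟩ := eventually_atTop.1 hev
  refine ⟨x₀, fun x hxx y hy hyx E hE hEc m hm hmx => ?_⟩
  obtain ⟨⟨⟨⟨⟨⟨e1, e2⟩, e3⟩, e4⟩, e5⟩, hX, hDl⟩, ⟨⟨hxx1, hxx5⟩, ⟨hxx6, hxxy⟩⟩⟩ := hx₀ x hxx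
  have hP := hy₀ x hxxy
  set P : ℝ := (Nat.primeCounting x : ℝ) with hPd
  set X : ℝ := Real.log x with hXd
  have hX3 : 3 ≤ X := le_trans (le_max_left _ _) hX
  have hX0 : 0 < X := by linarith
  have hX1 : 1 ≤ X := by linarith
  have hx0 : (0 : ℝ) < x := by
    have : 3 ≤ x := le_trans hy3 hxxy
    exact_mod_cast (by omega : 0 < x)
  have hP0 : 0 < P := lt_of_lt_of_le (by positivity) hP
  set e : ℝ := (E.card : ℝ) with hed
  have hyC0 : X ^ C0 ≤ (y : ℝ) :=
    le_trans (Real.rpow_le_rpow_of_exponent_le hX1 (le_max_left _ _)) hy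
  have hy6 : X ^ (6 : ℝ) ≤ (y : ℝ) :=
    le_trans (Real.rpow_le_rpow_of_exponent_le hX1 (le_max_right _ _)) hy
  have hy6' : X ^ 6 ≤ (y : ℝ) := by exact_mod_cast hy6
  have hyX : X ≤ (y : ℝ) := by
    refine le_trans ?_ hy6'
    exact le_self_pow₀ hX1 (by norm_num)
  have hyy0 : y₀ ≤ y := by exact_mod_cast le_trans (le_trans (le_max_right _ _) hX) hyX
  have hy3' : (3 : ℝ) ≤ y := by linarith
  have hy0 : (0 : ℝ) < y := by linarith
  have hpiy := hy₀ y hyy0
  have hpiy2 : X ^ 3 / 4 ≤ (Nat.primeCounting y : ℝ) := by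
    refine le_trans ?_ hpiy
    have hly : 0 < Real.log y := Real.log_pos (by linarith)
    have h1 : Real.log y ≤ 2 * √(y : ℝ) := by
      have h2 : Real.log √(y : ℝ) ≤ √(y : ℝ) - 1 := Real.log_le_sub_one_of_pos (Real.sqrt_pos.2 hy0)
      have h3 : Real.log √(y : ℝ) = Real.log y / 2 := by
        rw [Real.log_sqrt hy0.le]
      linarith
    have h2 : X ^ 3 ≤ √(y : ℝ) := by
      refine Real.le_sqrt_of_sq_le ?_
      rw [← pow_mul]; exact hy6'
    rw [le_div_iff₀ (by positivity)]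
    have h3 : √(y : ℝ) * √(y : ℝ) = y := Real.mul_self_sqrt hy0.le
    have h4 : 0 ≤ √(y : ℝ) := Real.sqrt_nonneg _
    have h5 : 0 < X ^ 3 := by positivity
    nlinarith
  have hXc : 0 < X ^ 2 := by positivity
  have he4 : X / 4 ≤ e := by
    refine le_trans ?_ hEc
    rw [le_div_iff₀ hXc]
    calc X / 4 * X ^ 2 = X ^ 3 / 4 := by ring
      _ ≤ _ := hpiy2
  have he0 : 0 < e := lt_of_lt_of_le (by positivity) he4
  have hone : 1 ≤ ε' * e := by
    rw [Real.rpow_one, div_le_iff₀ hX0] at e4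
    nlinarith
  set M : ℝ := e / X ^ 2 with hMd
  have hM0 : 0 < M := by positivity
  have hbad := hx₁ x hxx1 y hyC0 hyx E hE hEc
  set W : ℝ := 5 * Real.log X with hWd
  have hm2D : (2 * D * m : ℤ) ≠ 0 := by
    refine mul_ne_zero (mul_ne_zero (by norm_num) hD) hm
  set F : ℕ → ℝ := fun p => if p % 4 = 3 then ((E.filter (fun q : ℕ =>
    Adm p ((D * (m * (q : ℤ)) ^ 2 : ℤ) : ZMod p))).card : ℝ) else 0 with hFd
  set G : ℕ → ℝ := fun p => if p ∈ PR D x then 2 * rho p else 0 with hGd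
  have hF0 : ∀ p, 0 ≤ F p := fun p => by
    simp only [hFd]
    split_ifs
    · exact Nat.cast_nonneg _
    · exact le_rfl
  have hFe : ∀ p, F p ≤ e := fun p => by
    simp only [hFd]
    split_ifs
    · rw [hed]; exact_mod_cast card_filter_le _ _
    · exact he0.le
  have hG0 : ∀ p, 0 ≤ G p := by
    intro p
    simp only [hGd]
    split_ifs
    · exact mul_nonneg (by norm_num) (rho_nonneg p)
    · exact le_rfl
  have hG2 : ∀ p, G p ≤ 2 := by
    intro p
    simp only [hGd]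
    split_ifs
    · have h3 := rho_le_one p
      linarith
    · norm_num
  set Z1 : Finset ℕ := (PP x).filter (fun p => ¬ Good E M p) with hZ1
  set Z2 : Finset ℕ := (PP x).filter (fun p : ℕ => (p : ℤ) ∣ 2 * D * m) with hZ2
  set Z3 : Finset ℕ := (PP x).filter (fun p => W < ((p - 1).primeFactors.card : ℝ)) with hZ3
  have hZ1c : (Z1.card : ℝ) ≤ ε' * P := by
    have h1 : (x : ℝ) ^ (3 / 4 : ℝ) ≤ ε' * P := by
      have : (3 / 4 : ℝ) = 1 - 1 / 4 := by norm_num
      rw [this]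
      refine le_trans e1 ?_
      gcongr
    exact le_trans hbad h1
  have hZ2c : (Z2.card : ℝ) ≤ ε' * P := by
    refine le_trans (card_dvd _ hm2D x) ?_
    have h1 : Real.log |((2 * D * m : ℤ) : ℝ)| = Real.log |((2 * D : ℤ) : ℝ)| + Real.log |(m : ℝ)| := by
      have h2 : ((2 * D * m : ℤ) : ℝ) = ((2 * D : ℤ) : ℝ) * (m : ℝ) := by push_cast; ring
      rw [h2, abs_mul, Real.log_mul]
      · rw [abs_ne_zero]
        have : (2 * D : ℤ) ≠ 0 := mul_ne_zero (by norm_num) hD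
        exact_mod_cast this
      · rw [abs_ne_zero]; exact_mod_cast hm
    rw [h1]
    have h3 : 2 * √(x : ℝ) ≤ ε' / 2 * P := by
      refine le_trans e2 ?_
      gcongr
    linarith
  have hZ3c : (Z3.card : ℝ) ≤ ε' * P := by
    refine le_trans (hx₆ x hxx6) (le_trans e3 ?_)
    gcongr
  have hpt : ∀ p ∈ PP x, |F p - e * G p| ≤
      (if p ∈ Z1 then 2 * e else 0) + (if p ∈ Z2 then 2 * e else 0) + (if p ∈ Z3 then 2 * e else 0) +
        2 * (1 + 2 ^ L * M + W * M + 3 * e * hL L (p - 1)) := by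
    intro p hp
    have hh0 : 0 ≤ hL L (p - 1) := Finset.sum_nonneg fun l _ => by positivity
    have hW0 : 0 ≤ W := by
      have := Real.log_nonneg hX1
      positivity
    have hrest : 0 ≤ 2 * (1 + 2 ^ L * M + W * M + 3 * e * hL L (p - 1)) := by positivity
    have htriv : |F p - e * G p| ≤ 2 * e := by
      have g0 := hG0 p
      have g2 := hG2 p
      have f0 := hF0 p
      have fe := hFe p
      rw [abs_le]
      constructor
      · nlinarith
      · nlinarith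
    have i1 : 0 ≤ (if p ∈ Z1 then 2 * e else 0) := by split_ifs <;> linarith
    have i2 : 0 ≤ (if p ∈ Z2 then 2 * e else 0) := by split_ifs <;> linarith
    have i3 : 0 ≤ (if p ∈ Z3 then 2 * e else 0) := by split_ifs <;> linarith
    by_cases c1 : p ∈ Z1
    · rw [if_pos c1]; linarith
    by_cases c2 : p ∈ Z2
    · rw [if_pos c2]; linarith
    by_cases c3 : p ∈ Z3
    · rw [if_pos c3]; linarith
    have hgood : Good E M p := by
      by_contra hcon; exact c1 (mem_filter.2 ⟨hp, hcon⟩)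
    have hndvd : ¬ (p : ℤ) ∣ 2 * D * m := fun hcon => c2 (mem_filter.2 ⟨hp, hcon⟩)
    have hom : ((p - 1).primeFactors.card : ℝ) ≤ W := by
      by_contra hcon; exact c3 (mem_filter.2 ⟨hp, not_le.1 hcon⟩)
    have hpp : p.Prime := (mem_filter.1 hp).2
    have hp2 : p ≠ 2 := by
      rintro rfl
      apply hndvd
      rw [mul_assoc]
      exact Dvd.intro _ rfl
    have hpD : ¬ (p : ℤ) ∣ D := fun hcon => hndvd (by
      exact Dvd.dvd.mul_right (Dvd.dvd.mul_left hcon 2) m)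
    have hpm : ¬ (p : ℤ) ∣ m := fun hcon => hndvd (Dvd.dvd.mul_left hcon (2 * D))
    by_cases hp4 : p % 4 = 3
    swap
    · have hpPR : p ∉ PR D x := by
        unfold PR
        rw [mem_filter]
        exact fun h => hp4 h.2.2.1
      simp only [hGd, if_neg hpPR, hFd, if_neg hp4]
      rw [mul_zero, sub_zero, abs_zero]
      linarith
    have hpPR : p ∈ PR D x := by
      unfold PR
      rw [mem_filter]
      exact ⟨(mem_filter.1 hp).1, hpp, hp4, hpD⟩
    have := h3 p hpp hp4 E M D m L hL3 (fun q hq => (hE q hq).1) hM0.le hgood hpD hpm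
    simp only [hGd, if_pos hpPR, hFd, if_pos hp4]
    refine le_trans this ?_
    have h8 : ((p - 1).primeFactors.card : ℝ) * M ≤ W * M :=
      mul_le_mul_of_nonneg_right hom hM0.le
    linarith
  have hsum : |∑ p ∈ PP x, F p - e * ∑ p ∈ PP x, G p| ≤
      3 * (2 * (ε' * P * e)) + 2 * (P * (1 + 2 ^ L * M + W * M)) + 6 * e * (C / L * P) := by
    have hs1 : ∑ p ∈ PP x, F p - e * ∑ p ∈ PP x, G p =
        ∑ p ∈ PP x, (F p - e * G p) := by
      rw [Finset.sum_sub_distrib, Finset.mul_sum]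
    rw [hs1]
    refine le_trans (Finset.abs_sum_le_sum_abs _ _) (le_trans (Finset.sum_le_sum hpt) ?_)
    rw [Finset.sum_add_distrib, Finset.sum_add_distrib, Finset.sum_add_distrib, ← Finset.mul_sum,
      Finset.sum_add_distrib]
    have hsub : ∀ Z : Finset ℕ, Z ⊆ PP x → ∑ p ∈ PP x, (if p ∈ Z then 2 * e else 0) = Z.card * (2 * e) := by
      intro Z hZ
      rw [← Finset.sum_filter, Finset.sum_const, nsmul_eq_mul, Finset.filter_mem_eq_inter,
        Finset.inter_eq_right.2 hZ]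
    rw [hsub Z1 (filter_subset _ _), hsub Z2 (filter_subset _ _), hsub Z3 (filter_subset _ _),
      Finset.sum_const, nsmul_eq_mul, card_PP, ← hPd, ← Finset.mul_sum]
    have hh := hx₅ x hxx5
    have g1 : (Z1.card : ℝ) * (2 * e) ≤ ε' * P * (2 * e) := by gcongr
    have g2 : (Z2.card : ℝ) * (2 * e) ≤ ε' * P * (2 * e) := by gcongr
    have g3 : (Z3.card : ℝ) * (2 * e) ≤ ε' * P * (2 * e) := by gcongr
    have g4 : 3 * e * ∑ p ∈ PP x, hL L (p - 1) ≤ 3 * e * (C / L * P) := by gcongr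
    linarith
  have hGsum : ∑ p ∈ PP x, G p = mainT D x := by
    simp only [hGd]
    rw [← Finset.sum_filter]
    unfold mainT
    refine Finset.sum_congr ?_ fun _ _ => rfl
    ext p
    rw [mem_filter]
    constructor
    · exact fun h => h.2
    · intro h
      refine ⟨?_, h⟩
      unfold PR at h
      rw [mem_filter] at h
      exact mem_filter.2 ⟨h.1, h.2.1⟩
  rw [cnt_sum E D m x]
  change |∑ p ∈ PP x, F p - mainT D x * e| ≤ ε * P * e
  rw [← hGsum, mul_comm _ e]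
  have hMs : P * (1 + 2 ^ L * M + W * M) ≤ 2 * (ε' * P * e) := by
    have e5' : (2 ^ L + W) / X ^ 2 ≤ ε' := by
      have : X ^ (2 : ℝ) = X ^ 2 := by norm_cast
      rw [← this]
      exact e5
    have k1 : 2 ^ L * M + W * M = e * ((2 ^ L + W) / X ^ 2) := by
      rw [hMd]; ring
    have k2 : e * ((2 ^ L + W) / X ^ 2) ≤ e * ε' := by gcongr
    have k3 : 1 + 2 ^ L * M + W * M ≤ 2 * (ε' * e) := by linarith
    calc P * (1 + 2 ^ L * M + W * M) ≤ P * (2 * (ε' * e)) := by gcongr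
      _ = 2 * (ε' * P * e) := by ring
  have hCLP : 3 * e * (C / L * P) ≤ 3 * (ε' * P * e) := by
    have : C / (L : ℝ) * P ≤ ε' * P := by gcongr
    nlinarith
  have hfin : 20 * (ε' * P * e) = ε * P * e := by
    rw [hε'd]; ring
  have hpos : 0 ≤ ε' * P * e := by positivity
  linarith

/-- almost all primes -/
theorem primes (h3 : LocalA) (h5 : SumH) (h6 : OmegaLarge) (h2 : FewBad2) (D : ℤ) (hD : D ≠ 0) :
    ∃ C1 : ℝ, 6 ≤ C1 ∧ ∀ ε : ℝ, 0 < ε → ∃ x₀ : ℕ,
    ∀ x : ℕ, x₀ ≤ x → ∀ y : ℕ, (Real.log x) ^ C1 ≤ (y : ℝ) → y ≤ x →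
      ∀ m : ℤ, m ≠ 0 → Real.log |(m : ℝ)| ≤ √x →
        (((PP y).filter (fun q : ℕ => ε * (Nat.primeCounting x : ℝ) <
          |(cnt (D * (m * (q : ℤ)) ^ 2) x : ℝ) - mainT D x|)).card : ℝ) ≤
          2 * ((Nat.primeCounting y : ℝ) / (Real.log x) ^ 2) := by
  classical
  obtain ⟨C1, hC1, h⟩ := average h3 h5 h6 h2 D hD
  refine ⟨C1, hC1, fun ε hε => ?_⟩
  obtain ⟨x₁, hx₁⟩ := h (ε / 2) (by positivity)
  obtain ⟨y₀, hy3, hy₀⟩ := pi_lower
  have hev := (tlog.eventually_ge_atTop (max 3 (y₀ : ℝ))).and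
    ((eventually_ge_atTop x₁).and (eventually_ge_atTop y₀))
  obtain ⟨x₀, hx₀⟩ := eventually_atTop.1 hev
  refine ⟨x₀, fun x hxx y hy hyx m hm hmx => ?_⟩
  obtain ⟨hX, hxx1, hxxy⟩ := hx₀ x hxx
  have hP := hy₀ x hxxy
  set P : ℝ := (Nat.primeCounting x : ℝ) with hPd
  set X : ℝ := Real.log x with hXd
  have hX3 : 3 ≤ X := le_trans (le_max_left _ _) hX
  have hX0 : 0 < X := by linarith
  have hX1 : 1 ≤ X := by linarith
  have hx0 : (0 : ℝ) < x := by
    have : 3 ≤ x := le_trans hy3 hxxy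
    exact_mod_cast (by omega : 0 < x)
  have hP0 : 0 < P := lt_of_lt_of_le (by positivity) hP
  have hy2 : X ^ (1 : ℝ) ≤ (y : ℝ) :=
    le_trans (Real.rpow_le_rpow_of_exponent_le hX1 (by linarith)) hy
  rw [Real.rpow_one] at hy2
  have hyy0 : y₀ ≤ y := by exact_mod_cast le_trans (le_trans (le_max_right _ _) hX) hy2
  have hy0 : (0 : ℝ) < y := by linarith
  have hly : 0 < Real.log y := Real.log_pos (by linarith)
  have hpiy : 0 < (Nat.primeCounting y : ℝ) := lt_of_lt_of_le (by positivity) (hy₀ y hyy0)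
  set A : ℝ := mainT D x with hA
  have side : ∀ s : ℝ, (s = 1 ∨ s = -1) →
      (((PP y).filter (fun q : ℕ => ε * P < s * ((cnt (D * (m * (q : ℤ)) ^ 2) x : ℝ) - A))).card : ℝ) ≤
        (Nat.primeCounting y : ℝ) / X ^ 2 := by
    intro s hs
    by_contra hcon
    push Not at hcon
    set E := (PP y).filter (fun q : ℕ => ε * P < s * ((cnt (D * (m * (q : ℤ)) ^ 2) x : ℝ) - A)) with hEd
    have hEp : ∀ q ∈ E, q.Prime ∧ q ≤ y := by
      intro q hq
      rw [hEd, mem_filter, PP, mem_filter, mem_range] at hq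
      exact ⟨hq.1.2, by omega⟩
    have hav := hx₁ x hxx1 y hy hyx E hEp hcon.le m hm hmx
    have he0 : (0 : ℝ) < E.card := lt_trans (by positivity) hcon
    have hlow : ε * P * E.card ≤ s * (∑ q ∈ E, (cnt (D * (m * (q : ℤ)) ^ 2) x : ℝ) - A * E.card) := by
      have h1 : s * (∑ q ∈ E, (cnt (D * (m * (q : ℤ)) ^ 2) x : ℝ) - A * E.card) =
          ∑ q ∈ E, (s * ((cnt (D * (m * (q : ℤ)) ^ 2) x : ℝ) - A)) := by
        rw [← Finset.mul_sum, Finset.sum_sub_distrib, Finset.sum_const, nsmul_eq_mul]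
        ring
      rw [h1]
      have h3 : ∑ _q ∈ E, ε * P ≤ ∑ q ∈ E, (s * ((cnt (D * (m * (q : ℤ)) ^ 2) x : ℝ) - A)) := by
        apply Finset.sum_le_sum
        intro q hq
        rw [hEd, mem_filter] at hq
        exact hq.2.le
      rw [Finset.sum_const, nsmul_eq_mul] at h3
      linarith
    have hup : s * (∑ q ∈ E, (cnt (D * (m * (q : ℤ)) ^ 2) x : ℝ) - A * E.card) ≤
        ε / 2 * P * E.card := by
      rcases hs with hs | hs
      · rw [hs, one_mul]; exact le_trans (le_abs_self _) hav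
      · rw [hs]
        have := neg_abs_le (∑ q ∈ E, (cnt (D * (m * (q : ℤ)) ^ 2) x : ℝ) - A * E.card)
        linarith
    have hpos : 0 < ε * P * E.card := by positivity
    have : ε / 2 * P * E.card = (ε * P * E.card) / 2 := by ring
    linarith
  have h1 := side 1 (Or.inl rfl)
  have h2 := side (-1) (Or.inr rfl)
  have hsub : (PP y).filter (fun q : ℕ => ε * P < |(cnt (D * (m * (q : ℤ)) ^ 2) x : ℝ) - A|) ⊆
      (PP y).filter (fun q : ℕ => ε * P < 1 * ((cnt (D * (m * (q : ℤ)) ^ 2) x : ℝ) - A)) ∪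
      (PP y).filter (fun q : ℕ => ε * P < (-1) * ((cnt (D * (m * (q : ℤ)) ^ 2) x : ℝ) - A)) := by
    intro q hq
    rw [mem_filter] at hq
    rw [mem_union, mem_filter, mem_filter]
    rcases lt_abs.1 hq.2 with h3 | h3
    · left; exact ⟨hq.1, by linarith⟩
    · right; exact ⟨hq.1, by linarith⟩
  have h3 := (card_le_card hsub).trans (card_union_le _ _)
  have h4 : (((PP y).filter (fun q : ℕ => ε * P < |(cnt (D * (m * (q : ℤ)) ^ 2) x : ℝ) - A|)).card : ℝ) ≤
    (((PP y).filter (fun q : ℕ => ε * P < 1 * ((cnt (D * (m * (q : ℤ)) ^ 2) x : ℝ) - A))).card : ℝ) +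
    (((PP y).filter (fun q : ℕ => ε * P < (-1) * ((cnt (D * (m * (q : ℤ)) ^ 2) x : ℝ) - A))).card : ℝ) := by
    exact_mod_cast h3
  linarith

end Pool.Agent.H771R4.AQ
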