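import Mathlib
import Pool.Agent.H771R4.AQ.Primes
import Pool.Agent.H771R4.AQ.IntGrid
import Pool.Agent.H771R4.AQ.OneX
import Pool.Agent.H771R4.AQ.MainLim
import Pool.Agent.H730R2.AB.Final

set_option autoImplicit false

/-! # The final combination -/

namespace Pool.Agent.H771R4.AQ

open Finset Filter Topology
open Pool.Agent.H386R2.Artin (PP tlog smoothFew sumH omegaLarge)
open Pool.Agent.H730R2.AA (rho)
open Pool.Agent.H730R2.AB (localSq fewBad2 stephens_big)

theorem final (D : ℤ) (hD : D ≠ 0) (ε η : ℝ) (hε : 0 < ε) (hη : 0 < η) :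
    ∃ c : ℝ, 0 < c ∧ ∃ X : ℕ, ∀ᶠ M : ℕ in atTop,
      ((badAll D ε X (Real.exp ((M : ℝ) ^ c)) M).card : ℝ) ≤ η * M := by
  classical
  have hml := main_lim D hD
  obtain ⟨X, hX⟩ := all_x_of D ε (η / 2) hε (half_pos hη) hml
    (fun ε' hε' => one_x D hD ε' hε')
  obtain ⟨C1, hC1, hP⟩ := primes (localA localSq) sumH omegaLarge fewBad2 D hD
  have hP' : PrimesConcl D C1 := by
    intro ε' hε'
    obtain ⟨x₀, h⟩ := hP ε' hε'
    refine ⟨x₀, fun x hx y hy hyx m hm hm2 => ?_⟩
    refine le_trans (le_of_eq ?_) (h x hx y hy hyx m hm hm2)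
    unfold ExP
    congr!
  obtain ⟨c, hc, hbig⟩ := big_range D C1 (by linarith) hP' smoothFew hml ε (η / 2) hε (half_pos hη)
  refine ⟨c, hc, X, ?_⟩
  filter_upwards [hX, hbig, tlog.eventually stephens_big, eventually_ge_atTop 1] with M h1 h2 h3 h4
  obtain ⟨J, hJ, h2⟩ := h2
  have hM0 : (0 : ℝ) < M := by exact_mod_cast h4
  have hJS : (J : ℝ) ≤ Real.exp ((Real.log M) ^ 2 / (64 * Real.log (Real.log M))) := by
    refine hJ.trans ?_
    rw [← Real.exp_log (show (0 : ℝ) < 3 * M by positivity), Real.log_mul (by norm_num) hM0.ne']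
    exact Real.exp_le_exp.2 h3
  have hsub : badAll D ε X (Real.exp ((M : ℝ) ^ c)) M ⊆
      badAll D ε X (Real.exp ((Real.log M) ^ 2 / (64 * Real.log (Real.log M)))) M ∪
      badAll D ε J (Real.exp ((M : ℝ) ^ c)) M := by
    intro m hm
    unfold badAll at hm
    rw [mem_filter] at hm
    obtain ⟨hmM, x, hx1, hx2, hx3⟩ := hm
    rw [mem_union]
    by_cases hc : (x : ℝ) ≤ Real.exp ((Real.log M) ^ 2 / (64 * Real.log (Real.log M)))
    · left
      unfold badAll
      rw [mem_filter]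
      exact ⟨hmM, x, hx1, hc, hx3⟩
    · right
      unfold badAll
      rw [mem_filter]
      refine ⟨hmM, x, ?_, hx2, hx3⟩
      push Not at hc
      have : (J : ℝ) ≤ x := hJS.trans hc.le
      exact_mod_cast this
  have h5 := (card_le_card hsub).trans (card_union_le _ _)
  have h6 : ((badAll D ε X (Real.exp ((M : ℝ) ^ c)) M).card : ℝ) ≤
      ((badAll D ε X (Real.exp ((Real.log M) ^ 2 / (64 * Real.log (Real.log M)))) M).card : ℝ) +
      ((badAll D ε J (Real.exp ((M : ℝ) ^ c)) M).card : ℝ) := by exact_mod_cast h5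
  linarith

end Pool.Agent.H771R4.AQ
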